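import Mathlib

set_option autoImplicit false

namespace Pool.Agent.Helper798.FSeq

theorem rs {P : Type} [Preorder P] (p : P) {I : Type} [Countable I] (D : I → Set P)
    (hD : ∀ i, ∀ q : P, ∃ q' ∈ D i, q ≤ q') :
    ∃ s : ℕ → P, Monotone s ∧ s 0 = p ∧ ∀ i, ∃ n, s n ∈ D i := by
  classical
  letI : Encodable I := Encodable.ofCountable I
  let D' : I → Order.Cofinal P := fun i => ⟨D i, fun q => by
    obtain ⟨q', h1, h2⟩ := hD i q
    exact ⟨q', h1, h2⟩⟩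
  exact ⟨Order.sequenceOfCofinals p D', Order.sequenceOfCofinals.monotone p D', rfl,
    fun i => ⟨_, Order.sequenceOfCofinals.encode_mem p D' i⟩⟩

/-- Back and forth for finite sets of pairs. -/
theorem baf {X : Type} [Countable X] (P : Finset (X × X) → Prop)
    (hinj : ∀ s, P s → ∀ p ∈ s, ∀ q ∈ s, (p.1 = q.1 ↔ p.2 = q.2))
    (hf : ∀ s, P s → ∀ a, ∃ s', s ⊆ s' ∧ P s' ∧ ∃ b, (a, b) ∈ s')
    (hb : ∀ s, P s → ∀ b, ∃ s', s ⊆ s' ∧ P s' ∧ ∃ a, (a, b) ∈ s')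
    (s₀ : Finset (X × X)) (h₀ : P s₀) :
    ∃ g : Equiv.Perm X, (∀ p ∈ s₀, g p.1 = p.2) ∧
      ∀ F : Finset X, ∃ s, P s ∧ ∀ a ∈ F, (a, g a) ∈ s := by
  classical
  let D : X ⊕ X → Set {s : Finset (X × X) // P s} := fun i =>
    match i with
    | Sum.inl a => {s | ∃ b, (a, b) ∈ s.1}
    | Sum.inr b => {s | ∃ a, (a, b) ∈ s.1}
  obtain ⟨s, hmono, hs0, hsD⟩ := rs (P := {s : Finset (X × X) // P s}) ⟨s₀, h₀⟩ D (by
    rintro (a | b) ⟨q, hq⟩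
    · obtain ⟨s', h1, h2, h3⟩ := hf q hq a
      exact ⟨⟨s', h2⟩, h3, h1⟩
    · obtain ⟨s', h1, h2, h3⟩ := hb q hq b
      exact ⟨⟨s', h2⟩, h3, h1⟩)
  have h1 : ∀ a, ∃ b n, (a, b) ∈ (s n).1 := by
    intro a
    obtain ⟨n, b, hn⟩ := hsD (Sum.inl a)
    exact ⟨b, n, hn⟩
  have h2 : ∀ b, ∃ a n, (a, b) ∈ (s n).1 := by
    intro b
    obtain ⟨n, a, hn⟩ := hsD (Sum.inr b)
    exact ⟨a, n, hn⟩
  have hkey : ∀ a b n a' b' m, (a, b) ∈ (s n).1 → (a', b') ∈ (s m).1 → (a = a' ↔ b = b') := by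
    intro a b n a' b' m hn hm
    have hn' : (a, b) ∈ (s (max n m)).1 := hmono (le_max_left n m) hn
    have hm' : (a', b') ∈ (s (max n m)).1 := hmono (le_max_right n m) hm
    exact hinj _ (s (max n m)).2 _ hn' _ hm'
  choose f hfn using h1
  choose g hgn using h2
  choose nf hnf using hfn
  choose ng hng using hgn
  let e : Equiv.Perm X := ⟨f, g, by
    intro a
    exact (hkey _ _ _ _ _ _ (hng (f a)) (hnf a)).2 rfl, by
    intro b
    exact (hkey _ _ _ _ _ _ (hnf (g b)) (hng b)).1 rfl⟩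
  refine ⟨e, ?_, ?_⟩
  · rintro ⟨a, b⟩ hp
    have hp' : (a, b) ∈ (s 0).1 := by rw [hs0]; exact hp
    exact (hkey _ _ _ _ _ _ (hnf a) hp').1 rfl
  · intro F
    refine ⟨(s (F.sup nf)).1, (s (F.sup nf)).2, ?_⟩
    intro a ha
    exact hmono (Finset.le_sup ha) (hnf a)

end Pool.Agent.Helper798.FSeq
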