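import Mathlib

set_option autoImplicit false

namespace Pool.Agent.Helper798.FSeq

open Finset

universe u v

section basic

variable {X : Type u} [AddCommGroup X]

theorem add_eq_zero_iff' (hX : ∀ x : X, x + x = 0) (a b : X) : a + b = 0 ↔ a = b := by
  constructor
  · intro h
    have h1 : a + b = b + b := by rw [h, hX]
    exact add_right_cancel h1
  · rintro rfl; exact hX a

theorem sum_symmDiff (hX : ∀ x : X, x + x = 0) {I : Type*} [DecidableEq I] (S T : Finset I)
    (x : I → X) : ∑ i ∈ symmDiff S T, x i = ∑ i ∈ S, x i + ∑ i ∈ T, x i := by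
  have h1 : ∑ i ∈ S, x i = ∑ i ∈ S ∩ T, x i + ∑ i ∈ S \ T, x i :=
    (Finset.sum_inter_add_sum_sdiff S T x).symm
  have h2 : ∑ i ∈ T, x i = ∑ i ∈ T ∩ S, x i + ∑ i ∈ T \ S, x i :=
    (Finset.sum_inter_add_sum_sdiff T S x).symm
  have h3 : ∑ i ∈ symmDiff S T, x i = ∑ i ∈ S \ T, x i + ∑ i ∈ T \ S, x i := by
    rw [symmDiff_def, sup_eq_union, Finset.sum_union]
    exact disjoint_sdiff_sdiff
  rw [h1, h2, h3, Finset.inter_comm T S]
  have h4 := hX (∑ i ∈ S ∩ T, x i)
  calc ∑ i ∈ S \ T, x i + ∑ i ∈ T \ S, x i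
      = 0 + (∑ i ∈ S \ T, x i + ∑ i ∈ T \ S, x i) := by rw [zero_add]
    _ = (∑ i ∈ S ∩ T, x i + ∑ i ∈ S ∩ T, x i) + (∑ i ∈ S \ T, x i + ∑ i ∈ T \ S, x i) := by rw [h4]
    _ = _ := by abel

theorem card_symmDiff_add {I : Type*} [DecidableEq I] (S T : Finset I) :
    (symmDiff S T).card + 2 * (S ∩ T).card = S.card + T.card := by
  have h1 : (S ∩ T).card + (S \ T).card = S.card := Finset.card_inter_add_card_sdiff S T
  have h2 : (T ∩ S).card + (T \ S).card = T.card := Finset.card_inter_add_card_sdiff T S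
  have h3 : (symmDiff S T).card = (S \ T).card + (T \ S).card := by
    rw [symmDiff_def, sup_eq_union, Finset.card_union_of_disjoint]
    exact disjoint_sdiff_sdiff
  rw [Finset.inter_comm T S] at h2
  omega

/-- The set of even index sets over which the tuple sums to zero. -/
noncomputable def code {n : ℕ} (x : Fin n → X) : Finset (Finset (Fin n)) :=
  open Classical in univ.filter (fun S => Even S.card ∧ ∑ i ∈ S, x i = 0)

theorem mem_code {n : ℕ} (x : Fin n → X) (S : Finset (Fin n)) :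
    S ∈ code x ↔ Even S.card ∧ ∑ i ∈ S, x i = 0 := by
  simp [code]

theorem empty_mem_code {n : ℕ} (x : Fin n → X) : ∅ ∈ code x := by
  rw [mem_code]; simp

theorem symmDiff_mem_code (hX : ∀ x : X, x + x = 0) {n : ℕ} (x : Fin n → X)
    {S T : Finset (Fin n)} (hS : S ∈ code x) (hT : T ∈ code x) : symmDiff S T ∈ code x := by
  rw [mem_code] at hS hT ⊢
  refine ⟨?_, ?_⟩
  · have := card_symmDiff_add S T
    obtain ⟨a, ha⟩ := hS.1
    obtain ⟨b, hb⟩ := hT.1
    exact ⟨a + b - (S ∩ T).card, by omega⟩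
  · rw [sum_symmDiff hX, hS.2, hT.2, add_zero]

theorem card_ne_two (hX : ∀ x : X, x + x = 0) {n : ℕ} {x : Fin n → X}
    (hx : Function.Injective x) {S : Finset (Fin n)} (hS : S ∈ code x) : S.card ≠ 2 := by
  intro h2
  rw [Finset.card_eq_two] at h2
  obtain ⟨a, b, hab, rfl⟩ := h2
  rw [mem_code, Finset.sum_pair hab, add_eq_zero_iff' hX] at hS
  exact hab (hx hS.2)

theorem inj_of_code (hX : ∀ x : X, x + x = 0) {Y : Type v} [AddCommGroup Y]
    (hY : ∀ y : Y, y + y = 0) {n : ℕ} {x : Fin n → X} {y : Fin n → Y} (h : code x = code y)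
    (hx : Function.Injective x) : Function.Injective y := by
  intro a b hab
  by_contra hne
  have h1 : ({a, b} : Finset (Fin n)) ∈ code y := by
    rw [mem_code, Finset.card_pair hne, Finset.sum_pair hne, hab]
    exact ⟨even_two, hY _⟩
  rw [← h] at h1
  exact card_ne_two hX hx h1 (Finset.card_pair hne)

theorem even_iff {Y : Type v} [AddCommGroup Y] {n : ℕ} {x : Fin n → X} {y : Fin n → Y}
    (h : code x = code y) {S : Finset (Fin n)} (hS : Even S.card) :
    ∑ i ∈ S, x i = 0 ↔ ∑ i ∈ S, y i = 0 := by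
  have h1 : S ∈ code x ↔ S ∈ code y := by rw [h]
  rw [mem_code, mem_code] at h1
  constructor
  · intro h2; exact (h1.1 ⟨hS, h2⟩).2
  · intro h2; exact (h1.2 ⟨hS, h2⟩).2

theorem odd_iff (hX : ∀ x : X, x + x = 0) {Y : Type v} [AddCommGroup Y]
    (hY : ∀ y : Y, y + y = 0) {n : ℕ} {x : Fin n → X} {y : Fin n → Y}
    (h : code x = code y) {S T : Finset (Fin n)} (hS : ¬ Even S.card) (hT : ¬ Even T.card) :
    ∑ i ∈ S, x i = ∑ i ∈ T, x i ↔ ∑ i ∈ S, y i = ∑ i ∈ T, y i := by
  have h1 := card_symmDiff_add S T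
  have h2 : Even (symmDiff S T).card := by
    rw [Nat.not_even_iff_odd] at hS hT
    obtain ⟨a, ha⟩ := hS
    obtain ⟨b, hb⟩ := hT
    exact ⟨a + b + 1 - (S ∩ T).card, by omega⟩
  have h3 := even_iff h h2
  rw [sum_symmDiff hX, sum_symmDiff hY, add_eq_zero_iff' hX, add_eq_zero_iff' hY] at h3
  exact h3

/-- Pull back of an index set along `castSucc`. -/
def pb {n : ℕ} (S : Finset (Fin (n + 1))) : Finset (Fin n) :=
  univ.filter (fun i => i.castSucc ∈ S)

theorem sum_snoc {n : ℕ} (x : Fin n → X) (a : X) (S : Finset (Fin (n + 1))) :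
    ∑ i ∈ S, (Fin.snoc x a : Fin (n + 1) → X) i =
      ∑ i ∈ pb S, x i + (if Fin.last n ∈ S then a else 0) := by
  have h1 : ∑ i ∈ S, (Fin.snoc x a : Fin (n + 1) → X) i =
      ∑ i, if i ∈ S then (Fin.snoc x a : Fin (n + 1) → X) i else 0 := by
    rw [← Finset.sum_filter]
    congr 1
    ext i; simp
  rw [h1, Fin.sum_univ_castSucc]
  simp only [Fin.snoc_castSucc, Fin.snoc_last]
  congr 1
  rw [pb, Finset.sum_filter]

theorem card_pb {n : ℕ} (S : Finset (Fin (n + 1))) :
    S.card = (pb S).card + (if Fin.last n ∈ S then 1 else 0) := by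
  have h1 : S.card = ∑ i, if i ∈ S then 1 else 0 := by
    rw [← Finset.sum_filter]
    simp
  rw [h1, Fin.sum_univ_castSucc]
  congr 1
  rw [pb, Finset.card_filter]

/-- Add the last index or not. -/
def ext {n : ℕ} (S : Finset (Fin n)) (b : Bool) : Finset (Fin (n + 1)) :=
  if b then insert (Fin.last n) (S.map Fin.castSuccEmb) else S.map Fin.castSuccEmb

theorem pb_ext {n : ℕ} (S : Finset (Fin n)) (b : Bool) : pb (ext S b) = S := by
  ext i
  cases b <;> simp [pb, ext, Fin.castSucc_ne_last]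

theorem last_mem_ext {n : ℕ} (S : Finset (Fin n)) (b : Bool) :
    Fin.last n ∈ ext S b ↔ b = true := by
  cases b <;> simp [ext, Fin.castSucc_ne_last]

theorem ext_pb {n : ℕ} (S : Finset (Fin (n + 1))) :
    ext (pb S) (decide (Fin.last n ∈ S)) = S := by
  ext i
  refine Fin.lastCases ?_ (fun j => ?_) i
  · rw [last_mem_ext]; simp
  · by_cases h : Fin.last n ∈ S
    · simp [ext, h, pb, Fin.castSucc_ne_last]
    · simp [ext, h, pb]

/-- One point extension. -/
theorem one_ext (hX : ∀ x : X, x + x = 0) {Y : Type v} [AddCommGroup Y] [Infinite Y]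
    (hY : ∀ y : Y, y + y = 0) {n : ℕ} {x : Fin n → X} {y : Fin n → Y} (h : code x = code y)
    (a : X) : ∃ b : Y, code (Fin.snoc x a : Fin (n + 1) → X) =
      code (Fin.snoc y b : Fin (n + 1) → Y) := by
  classical
  have main : ∃ b : Y, ∀ T : Finset (Fin n), ¬ Even T.card →
      (∑ i ∈ T, x i = a ↔ ∑ i ∈ T, y i = b) := by
    by_cases hex : ∃ S : Finset (Fin n), ¬ Even S.card ∧ ∑ i ∈ S, x i = a
    · obtain ⟨S, hS, hSa⟩ := hex
      refine ⟨∑ i ∈ S, y i, ?_⟩
      intro T hT
      rw [← hSa]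
      exact odd_iff hX hY h hT hS
    · push Not at hex
      obtain ⟨b, hb⟩ := Infinite.exists_notMem_finset
        (univ.image (fun T : Finset (Fin n) => ∑ i ∈ T, y i))
      refine ⟨b, ?_⟩
      intro T hT
      constructor
      · intro h1; exact absurd h1 (hex T hT)
      · intro h1; exact absurd (Finset.mem_image.2 ⟨T, Finset.mem_univ _, h1⟩) hb
  obtain ⟨b, hb⟩ := main
  refine ⟨b, ?_⟩
  ext S
  rw [mem_code, mem_code]
  apply and_congr_right
  intro hS
  rw [sum_snoc, sum_snoc]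
  rw [card_pb] at hS
  by_cases hl : Fin.last n ∈ S
  · simp only [hl, if_true] at hS ⊢
    rw [add_eq_zero_iff' hX, add_eq_zero_iff' hY]
    apply hb
    intro he
    exact (Nat.even_add_one.1 hS) he
  · simp only [hl, if_false, add_zero] at hS ⊢
    exact even_iff h hS

theorem transfer (hX : ∀ x : X, x + x = 0) {Y : Type v} [AddCommGroup Y] [Infinite Y]
    (hY : ∀ y : Y, y + y = 0) (n : ℕ) (x : Fin n → X) : ∃ y : Fin n → Y, code x = code y := by
  induction n with
  | zero =>
    refine ⟨Fin.elim0, ?_⟩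
    ext S
    rw [mem_code, mem_code]
    have : S = ∅ := Subsingleton.elim _ _
    rw [this]
    simp
  | succ n ih =>
    obtain ⟨y, hy⟩ := ih (Fin.init x)
    obtain ⟨b, hb⟩ := one_ext hX hY hy (x (Fin.last n))
    rw [Fin.snoc_init_self] at hb
    exact ⟨_, hb⟩

/-- The set of codes of `n`-tuples of distinct points. -/
def CS (X : Type u) [AddCommGroup X] (n : ℕ) : Set (Finset (Finset (Fin n))) :=
  Set.range (fun x : Fin n ↪ X => code x)

theorem CS_sub (hX : ∀ x : X, x + x = 0) {Y : Type v} [AddCommGroup Y] [Infinite Y]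
    (hY : ∀ y : Y, y + y = 0) (n : ℕ) : CS X n ⊆ CS Y n := by
  rintro c ⟨x, rfl⟩
  obtain ⟨y, hy⟩ := transfer hX hY n (x : Fin n → X)
  exact ⟨⟨y, inj_of_code hX hY hy x.injective⟩, hy.symm⟩

theorem CS_eq [Infinite X] (hX : ∀ x : X, x + x = 0) {Y : Type v} [AddCommGroup Y] [Infinite Y]
    (hY : ∀ y : Y, y + y = 0) (n : ℕ) : CS X n = CS Y n :=
  Set.Subset.antisymm (CS_sub hX hY n) (CS_sub hY hX n)

theorem CS_nonempty [Infinite X] (n : ℕ) : (CS X n).Nonempty := by
  obtain ⟨e⟩ : Nonempty (Fin n ↪ X) := by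
    exact ⟨(Fin.valEmbedding).trans (Infinite.natEmbedding X)⟩
  exact ⟨_, ⟨e, rfl⟩⟩

/-- Affine maps. -/
def IsAff (g : X → X) : Prop := ∀ x y z, g (x + y + z) = g x + g y + g z

theorem aff_sum (hX : ∀ x : X, x + x = 0) {g : X → X} (hg : IsAff g) {I : Type*} [DecidableEq I]
    (S : Finset I) (x : I → X) :
    ∑ i ∈ S, g (x i) = g (∑ i ∈ S, x i) + (if Even S.card then g 0 else 0) := by
  induction S using Finset.induction_on with
  | empty => simp [hX]
  | insert a S ha ih =>
    rw [Finset.sum_insert ha, Finset.sum_insert ha, ih, Finset.card_insert_of_notMem ha]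
    have h1 : g (x a + ∑ i ∈ S, x i) = g (x a) + g (∑ i ∈ S, x i) + g 0 := by
      rw [← hg, add_zero]
    rw [h1]
    by_cases he : Even S.card
    · have he' : ¬ Even (S.card + 1) := by rw [Nat.even_add_one]; exact fun h => h he
      rw [if_pos he, if_neg he', add_zero, add_assoc]
    · have he' : Even (S.card + 1) := by rw [Nat.even_add_one]; exact he
      rw [if_neg he, if_pos he', add_zero, add_assoc, add_assoc, hX, add_zero]

theorem code_aff (hX : ∀ x : X, x + x = 0) {g : X → X} (hg : IsAff g)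
    (hinj : Function.Injective g) {n : ℕ} (x : Fin n → X) : code (fun i => g (x i)) = code x := by
  ext S
  rw [mem_code, mem_code]
  apply and_congr_right
  intro hS
  rw [aff_sum hX hg, if_pos hS, add_eq_zero_iff' hX]
  exact ⟨fun h => hinj h, fun h => by rw [h]⟩

end basic

end Pool.Agent.Helper798.FSeq
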