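import Mathlib

set_option autoImplicit false

namespace Pool.Agent.Helper798.FSeq

universe u

/-- Two `n`-tuples of distinct points are equivalent when some element of `G` maps the
first to the second. -/
def tupleSetoid {Ω : Type u} (G : Subgroup (Equiv.Perm Ω)) (n : ℕ) : Setoid (Fin n ↪ Ω) where
  r x y := ∃ g ∈ G, ∀ i, g (x i) = y i
  iseqv :=
    { refl := fun x => ⟨1, G.one_mem, fun _ => rfl⟩
      symm := by
        rintro x y ⟨g, hg, h⟩
        exact ⟨g⁻¹, G.inv_mem hg, fun i => by rw [← h i]; exact g.symm_apply_apply (x i)⟩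
      trans := by
        rintro x y z ⟨g, hg, h⟩ ⟨g', hg', h'⟩
        exact ⟨g' * g, G.mul_mem hg' hg, fun i => by
          rw [Equiv.Perm.mul_apply, h i, h' i]⟩ }

/-- `F_n(G)`: the number of orbits of `G` on ordered `n`-tuples of distinct points
(`0` when there are infinitely many orbits). -/
noncomputable def orbitCount {Ω : Type u} (G : Subgroup (Equiv.Perm Ω)) (n : ℕ) : ℕ :=
  Nat.card (Quotient (tupleSetoid G n))

/-- Two arbitrary `n`-tuples are equivalent when some element of `G` maps the
first to the second. -/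
def allTupleSetoid {Ω : Type u} (G : Subgroup (Equiv.Perm Ω)) (n : ℕ) :
    Setoid (Fin n → Ω) where
  r x y := ∃ g ∈ G, ∀ i, g (x i) = y i
  iseqv :=
    { refl := fun x => ⟨1, G.one_mem, fun _ => rfl⟩
      symm := by
        rintro x y ⟨g, hg, h⟩
        exact ⟨g⁻¹, G.inv_mem hg, fun i => by rw [← h i]; exact g.symm_apply_apply (x i)⟩
      trans := by
        rintro x y z ⟨g, hg, h⟩ ⟨g', hg', h'⟩
        exact ⟨g' * g, G.mul_mem hg' hg, fun i => by
          rw [Equiv.Perm.mul_apply, h i, h' i]⟩ }

/-- `G` is oligomorphic: finitely many orbits on `Ω^n` for every `n ≥ 1`. -/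
def Oligomorphic {Ω : Type u} (G : Subgroup (Equiv.Perm Ω)) : Prop :=
  ∀ n : ℕ, 1 ≤ n → Finite (Quotient (allTupleSetoid G n))

/-- `G` is primitive: transitive, and the only equivalence relations preserved by `G` are
equality and the universal relation. -/
def Primitive {Ω : Type u} (G : Subgroup (Equiv.Perm Ω)) : Prop :=
  (∀ x y : Ω, ∃ g ∈ G, g x = y) ∧
    ∀ r : Setoid Ω, (∀ g ∈ G, ∀ x y, r x y → r (g x) (g y)) →
      (∀ x y, r x y → x = y) ∨ (∀ x y, r x y)

section tools

variable {Ω : Type u} {G : Subgroup (Equiv.Perm Ω)} {n : ℕ}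

theorem rel_iff (x y : Fin n ↪ Ω) : (tupleSetoid G n) x y ↔ ∃ g ∈ G, ∀ i, g (x i) = y i := Iff.rfl

theorem finite_of_ne_zero (h : orbitCount G n ≠ 0) : Finite (Quotient (tupleSetoid G n)) :=
  Nat.finite_of_card_ne_zero h

/-- An invariant takes at most `F_n` values. -/
theorem ncard_le {A : Type*} (f : (Fin n ↪ Ω) → A)
    (hf : ∀ x y : Fin n ↪ Ω, (∃ g ∈ G, ∀ i, g (x i) = y i) → f x = f y)
    (h : orbitCount G n ≠ 0) : (Set.range f).ncard ≤ orbitCount G n := by
  haveI := finite_of_ne_zero h
  let F : Quotient (tupleSetoid G n) → A := Quotient.lift f hf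
  have h1 : Set.range f = Set.range F := by
    ext a
    constructor
    · rintro ⟨x, rfl⟩; exact ⟨Quotient.mk _ x, rfl⟩
    · rintro ⟨q, rfl⟩
      induction q using Quotient.inductionOn with
      | h x => exact ⟨x, rfl⟩
  rw [h1, ← Set.image_univ]
  refine (Set.ncard_image_le (Set.finite_univ)).trans ?_
  rw [Set.ncard_univ]
  exact le_rfl

/-- If an invariant takes exactly `F_n` values then it separates orbits. -/
theorem separates {A : Type*} (f : (Fin n ↪ Ω) → A)
    (hf : ∀ x y : Fin n ↪ Ω, (∃ g ∈ G, ∀ i, g (x i) = y i) → f x = f y)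
    (h : orbitCount G n ≠ 0) (heq : orbitCount G n ≤ (Set.range f).ncard)
    (x y : Fin n ↪ Ω) (hxy : f x = f y) : ∃ g ∈ G, ∀ i, g (x i) = y i := by
  haveI := finite_of_ne_zero h
  let F : Quotient (tupleSetoid G n) → A := Quotient.lift f hf
  have h1 : Set.range f = F '' Set.univ := by
    ext a
    constructor
    · rintro ⟨x, rfl⟩; exact ⟨Quotient.mk _ x, trivial, rfl⟩
    · rintro ⟨q, _, rfl⟩
      induction q using Quotient.inductionOn with
      | h x => exact ⟨x, rfl⟩
  have h2 : (F '' Set.univ).ncard = (Set.univ : Set (Quotient (tupleSetoid G n))).ncard := by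
    apply le_antisymm (Set.ncard_image_le Set.finite_univ)
    rw [← h1, Set.ncard_univ]
    exact heq
  have h3 := Set.injOn_of_ncard_image_eq h2 Set.finite_univ
  have h4 : (Quotient.mk (tupleSetoid G n) x) = Quotient.mk (tupleSetoid G n) y :=
    h3 (Set.mem_univ _) (Set.mem_univ _) hxy
  exact Quotient.exact h4

/-- A complete invariant computes `F_n`. -/
theorem orbitCount_eq {A : Type*} [Finite A] (f : (Fin n ↪ Ω) → A)
    (hf : ∀ x y : Fin n ↪ Ω, (∃ g ∈ G, ∀ i, g (x i) = y i) ↔ f x = f y) :
    orbitCount G n = (Set.range f).ncard := by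
  let F : Quotient (tupleSetoid G n) → A := Quotient.lift f (fun x y h => (hf x y).1 h)
  have hinj : Function.Injective F := by
    intro p q
    induction p using Quotient.inductionOn with
    | h x =>
      induction q using Quotient.inductionOn with
      | h y =>
        intro hxy
        exact Quotient.sound ((hf x y).2 hxy)
  have h1 : Set.range f = F '' Set.univ := by
    ext a
    constructor
    · rintro ⟨x, rfl⟩; exact ⟨Quotient.mk _ x, trivial, rfl⟩
    · rintro ⟨q, _, rfl⟩
      induction q using Quotient.inductionOn with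
      | h x => exact ⟨x, rfl⟩
  rw [h1, Set.ncard_image_of_injective _ hinj, Set.ncard_univ]
  rfl

theorem orbitCount_eq_one (hne : Nonempty (Fin n ↪ Ω))
    (h : ∀ x y : Fin n ↪ Ω, ∃ g ∈ G, ∀ i, g (x i) = y i) : orbitCount G n = 1 := by
  rw [orbitCount_eq (fun _ => ()) (fun x y => ⟨fun _ => rfl, fun _ => h x y⟩)]
  obtain ⟨x⟩ := hne
  have : Set.range (fun _ : Fin n ↪ Ω => ()) = {()} := by
    ext a
    constructor
    · intro _; rfl
    · intro _; exact ⟨x, rfl⟩
  rw [this, Set.ncard_singleton]

/-- A group which is transitive on pairs of distinct points is primitive. -/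
theorem primitive_of_two (h1 : ∀ x y : Ω, ∃ g ∈ G, g x = y)
    (h2 : ∀ x y x' y' : Ω, x ≠ y → x' ≠ y' → ∃ g ∈ G, g x = x' ∧ g y = y') : Primitive G := by
  refine ⟨h1, ?_⟩
  intro r hr
  by_cases h : ∀ x y, r x y → x = y
  · exact Or.inl h
  · right
    push Not at h
    obtain ⟨x, y, hxy, hne⟩ := h
    intro x' y'
    by_cases hx' : x' = y'
    · rw [hx']
    · obtain ⟨g, hg, hgx, hgy⟩ := h2 x y x' y' hne hx'
      have := hr g hg x y hxy
      rw [hgx, hgy] at this
      exact this

end tools

end Pool.Agent.Helper798.FSeq
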