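import Mathlib
import Pool.Agent.Helper798.FSeq.Defs
import Pool.Agent.Helper798.FSeq.Codes
import Pool.Agent.Helper798.FSeq.Baf

set_option autoImplicit false

namespace Pool.Agent.Helper798.FSeq

open Finset

universe u

/-- The affine group. -/
def affGroup (X : Type u) [AddCommGroup X] : Subgroup (Equiv.Perm X) where
  carrier := {g | ∀ x y z, g (x + y + z) = g x + g y + g z}
  mul_mem' := by
    intro g h hg hh x y z
    rw [Equiv.Perm.mul_apply, Equiv.Perm.mul_apply, Equiv.Perm.mul_apply, Equiv.Perm.mul_apply,
      hh, hg]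
  one_mem' := fun _ _ _ => rfl
  inv_mem' := by
    intro g hg x y z
    have h1 : ∀ w, g (g⁻¹ w) = w := fun w => g.apply_symm_apply w
    apply g.injective
    rw [hg, h1, h1, h1, h1]

theorem mem_affGroup {X : Type u} [AddCommGroup X] (g : Equiv.Perm X) :
    g ∈ affGroup X ↔ IsAff g := Iff.rfl

section core

variable {X : Type u} [AddCommGroup X]

/-- The even subset condition. -/
def EC {I : Type*} (u v : I → X) (s : Finset I) : Prop :=
  ∀ F ⊆ s, Even F.card → (∑ i ∈ F, u i = 0 ↔ ∑ i ∈ F, v i = 0)

theorem EC.symm {I : Type*} {u v : I → X} {s : Finset I} (h : EC u v s) : EC v u s :=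
  fun F hF he => (h F hF he).symm

theorem EC.odd (hX : ∀ x : X, x + x = 0) {I : Type*} [DecidableEq I] {u v : I → X} {s : Finset I}
    (h : EC u v s) {S T : Finset I} (hSs : S ⊆ s) (hTs : T ⊆ s) (hS : ¬ Even S.card)
    (hT : ¬ Even T.card) : ∑ i ∈ S, u i = ∑ i ∈ T, u i ↔ ∑ i ∈ S, v i = ∑ i ∈ T, v i := by
  have h1 := card_symmDiff_add S T
  have h2 : Even (symmDiff S T).card := by
    rw [Nat.not_even_iff_odd] at hS hT
    obtain ⟨a, ha⟩ := hS
    obtain ⟨b, hb⟩ := hT
    exact ⟨a + b + 1 - (S ∩ T).card, by omega⟩
  have h4 : symmDiff S T ⊆ s := by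
    intro i hi
    rw [Finset.mem_symmDiff] at hi
    rcases hi with ⟨h, _⟩ | ⟨h, _⟩
    · exact hSs h
    · exact hTs h
  have h3 := h _ h4 h2
  rw [sum_symmDiff hX, sum_symmDiff hX, add_eq_zero_iff' hX, add_eq_zero_iff' hX] at h3
  exact h3

theorem EC.ext [Infinite X] (hX : ∀ x : X, x + x = 0) {I : Type*} {u v : I → X}
    {s : Finset I} (h : EC u v s) (a : X) :
    ∃ b : X, ∀ T ⊆ s, ¬ Even T.card → (∑ i ∈ T, u i = a ↔ ∑ i ∈ T, v i = b) := by
  classical
  by_cases hex : ∃ S ⊆ s, ¬ Even S.card ∧ ∑ i ∈ S, u i = a
  · obtain ⟨S, hSs, hS, hSa⟩ := hex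
    refine ⟨∑ i ∈ S, v i, ?_⟩
    intro T hTs hT
    rw [← hSa]
    exact h.odd hX hTs hSs hT hS
  · push Not at hex
    obtain ⟨b, hb⟩ := Infinite.exists_notMem_finset
      (s.powerset.image (fun T : Finset I => ∑ i ∈ T, v i))
    refine ⟨b, ?_⟩
    intro T hTs hT
    constructor
    · intro h1; exact absurd h1 (hex T hTs hT)
    · intro h1; exact absurd (Finset.mem_image.2 ⟨T, Finset.mem_powerset.2 hTs, h1⟩) hb

theorem EC.insert (hX : ∀ x : X, x + x = 0) {I : Type*} [DecidableEq I] {u v : I → X}
    {s : Finset I} (h : EC u v s) (c : I)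
    (hc : ∀ T ⊆ s, ¬ Even T.card → (∑ i ∈ T, u i = u c ↔ ∑ i ∈ T, v i = v c)) :
    EC u v (insert c s) := by
  intro F hF he
  by_cases hcF : c ∈ F
  · have h1 : F = Insert.insert c (F.erase c) := (Finset.insert_erase hcF).symm
    have h2 : F.erase c ⊆ s := by
      intro i hi
      rw [Finset.mem_erase] at hi
      have := hF hi.2
      rw [Finset.mem_insert] at this
      exact this.resolve_left hi.1
    have h3 : ¬ Even (F.erase c).card := by
      have h4 := Finset.card_erase_add_one hcF
      rw [← h4] at he
      intro h5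
      exact (Nat.even_add_one.1 he) h5
    have h6 := hc _ h2 h3
    rw [← Finset.add_sum_erase F u hcF, ← Finset.add_sum_erase F v hcF,
      add_comm (u c), add_comm (v c), add_eq_zero_iff' hX, add_eq_zero_iff' hX]
    exact h6
  · apply h F _ he
    intro i hi
    have := hF hi
    rw [Finset.mem_insert] at this
    rcases this with h1 | h1
    · exact absurd (h1 ▸ hi) hcF
    · exact h1

end core

/-- Homogeneity of the affine group. -/
theorem homog {X : Type} [AddCommGroup X] [Countable X] [Infinite X] (hX : ∀ x : X, x + x = 0)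
    {n : ℕ} (x y : Fin n → X) (h : code x = code y) :
    ∃ g ∈ affGroup X, ∀ i, g (x i) = y i := by
  classical
  obtain ⟨g, hg1, hg2⟩ := baf (X := X) (fun s => EC Prod.fst Prod.snd s) (by
    intro s hs p hp q hq
    have h1 := hs.odd hX (S := {p}) (T := {q}) (by simpa using hp) (by simpa using hq)
      (by simp) (by simp)
    simpa using h1) (by
    intro s hs a
    obtain ⟨b, hb⟩ := hs.ext hX a
    exact ⟨insert (a, b) s, Finset.subset_insert _ _, hs.insert hX (a, b) hb, b,
      Finset.mem_insert_self _ _⟩) (by
    intro s hs b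
    obtain ⟨a, ha⟩ := hs.symm.ext hX b
    exact ⟨insert (a, b) s, Finset.subset_insert _ _, (hs.symm.insert hX (a, b) ha).symm, a,
      Finset.mem_insert_self _ _⟩) (univ.image (fun i => (x i, y i))) (by
    intro F hF he
    have h1 : Set.SurjOn (fun i => (x i, y i)) (Set.univ : Set (Fin n)) (F : Set (X × X)) := by
      intro p hp
      have := hF hp
      rw [Finset.mem_image] at this
      obtain ⟨i, _, hi⟩ := this
      exact ⟨i, trivial, hi⟩
    obtain ⟨T, _, hT1, hT2⟩ := Finset.exists_subset_injOn_image_eq_of_surjOn _ _ h1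
    have hc : F.card = T.card := by rw [← hT2, Finset.card_image_of_injOn hT1]
    rw [← hT2, Finset.sum_image hT1, Finset.sum_image hT1]
    rw [hc] at he
    exact even_iff h he)
  refine ⟨g, ?_, ?_⟩
  · rw [mem_affGroup]
    intro a b c
    by_cases hab : a = b
    · subst hab
      rw [hX, zero_add, hX, zero_add]
    by_cases hac : a = c
    · subst hac
      have h1 : a + b + a = b := by rw [add_comm a b, add_assoc, hX, add_zero]
      have h2 : g a + g b + g a = g b := by rw [add_comm (g a) (g b), add_assoc, hX, add_zero]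
      rw [h1, h2]
    by_cases hbc : b = c
    · subst hbc
      rw [add_assoc, hX, add_zero, add_assoc, hX, add_zero]
    have hd1 : a + b + c ≠ a := by
      intro h1
      rw [add_assoc] at h1
      have h2 : b + c = 0 := by
        have h3 : a + (b + c) = a + 0 := by rw [h1, add_zero]
        exact add_left_cancel h3
      exact hbc ((add_eq_zero_iff' hX _ _).1 h2)
    have hd2 : a + b + c ≠ b := by
      intro h1
      have h2 : a + c = 0 := by
        have h3 : b + (a + c) = b + 0 := by rw [← add_assoc, add_comm b a, h1, add_zero]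
        exact add_left_cancel h3
      exact hac ((add_eq_zero_iff' hX _ _).1 h2)
    have hd3 : a + b + c ≠ c := by
      intro h1
      have h2 : a + b = 0 := by
        have h3 : (a + b) + c = 0 + c := by rw [h1, zero_add]
        exact add_right_cancel h3
      exact hab ((add_eq_zero_iff' hX _ _).1 h2)
    obtain ⟨s, hs, hsF⟩ := hg2 {a, b, c, a + b + c}
    have key := hs {(a, g a), (b, g b), (c, g c), (a + b + c, g (a + b + c))} (by
      intro p hp
      simp only [Finset.mem_insert, Finset.mem_singleton] at hp
      rcases hp with rfl | rfl | rfl | rfl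
      · exact hsF _ (by simp)
      · exact hsF _ (by simp)
      · exact hsF _ (by simp)
      · exact hsF _ (by simp))
    have n1 : (a, g a) ∉ ({(b, g b), (c, g c), (a + b + c, g (a + b + c))} : Finset (X × X)) := by
      simp only [Finset.mem_insert, Finset.mem_singleton, Prod.mk.injEq, not_or, not_and]
      exact ⟨fun h => absurd h hab, fun h => absurd h hac, fun h => absurd h.symm hd1⟩
    have n2 : (b, g b) ∉ ({(c, g c), (a + b + c, g (a + b + c))} : Finset (X × X)) := by
      simp only [Finset.mem_insert, Finset.mem_singleton, Prod.mk.injEq, not_or, not_and]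
      exact ⟨fun h => absurd h hbc, fun h => absurd h.symm hd2⟩
    have n3 : (c, g c) ∉ ({(a + b + c, g (a + b + c))} : Finset (X × X)) := by
      simp only [Finset.mem_singleton, Prod.mk.injEq, not_and]
      exact fun h => absurd h.symm hd3
    rw [Finset.card_insert_of_notMem n1, Finset.card_insert_of_notMem n2,
      Finset.card_insert_of_notMem n3, Finset.card_singleton, Finset.sum_insert n1,
      Finset.sum_insert n2, Finset.sum_insert n3, Finset.sum_singleton, Finset.sum_insert n1,
      Finset.sum_insert n2, Finset.sum_insert n3, Finset.sum_singleton] at key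
    have k1 := (key (by decide)).1 (by
      show a + (b + (c + (a + b + c))) = 0
      have : a + (b + (c + (a + b + c))) = (a + b + c) + (a + b + c) := by abel
      rw [this, hX])
    have k2 : g a + (g b + (g c + g (a + b + c))) = (g a + g b + g c) + g (a + b + c) := by abel
    change g a + (g b + (g c + g (a + b + c))) = 0 at k1
    rw [k2, add_eq_zero_iff' hX] at k1
    exact k1.symm
  · intro i
    exact hg1 (x i, y i) (Finset.mem_image.2 ⟨i, Finset.mem_univ _, rfl⟩)

end Pool.Agent.Helper798.FSeq
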