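import Mathlib
import Pool.Agent.Helper798.FSeq.Defs

set_option autoImplicit false

namespace Pool.Agent.Helper798.FSeq

open Finset

universe u

/-- Four distinct points. -/
def Nd4 {Ω : Type u} (a b c d : Ω) : Prop := a ≠ b ∧ a ≠ c ∧ a ≠ d ∧ b ≠ c ∧ b ≠ d ∧ c ≠ d

/-- Five distinct points. -/
def Nd5 {Ω : Type u} (a b c d e : Ω) : Prop :=
  Nd4 a b c d ∧ a ≠ e ∧ b ≠ e ∧ c ≠ e ∧ d ≠ e

def mk3 {Ω : Type u} (a b c : Ω) (h : a ≠ b ∧ a ≠ c ∧ b ≠ c) : Fin 3 ↪ Ω :=
  ⟨![a, b, c], by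
    obtain ⟨h1, h2, h3⟩ := h
    intro i j hij
    fin_cases i <;> fin_cases j <;> simp_all [eq_comm]⟩

def mk4 {Ω : Type u} (a b c d : Ω) (h : Nd4 a b c d) : Fin 4 ↪ Ω :=
  ⟨![a, b, c, d], by
    obtain ⟨h1, h2, h3, h4, h5, h6⟩ := h
    intro i j hij
    fin_cases i <;> fin_cases j <;> simp_all [eq_comm]⟩

def mk5 {Ω : Type u} (a b c d e : Ω) (h : Nd5 a b c d e) : Fin 5 ↪ Ω :=
  ⟨![a, b, c, d, e], by
    obtain ⟨⟨h1, h2, h3, h4, h5, h6⟩, h7, h8, h9, h10⟩ := h
    intro i j hij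
    fin_cases i <;> fin_cases j <;> simp_all [eq_comm]⟩

theorem nd4_of {Ω : Type u} (x : Fin 4 ↪ Ω) : Nd4 (x 0) (x 1) (x 2) (x 3) :=
  ⟨x.injective.ne (by decide), x.injective.ne (by decide), x.injective.ne (by decide),
    x.injective.ne (by decide), x.injective.ne (by decide), x.injective.ne (by decide)⟩

theorem nd5_of {Ω : Type u} (x : Fin 5 ↪ Ω) : Nd5 (x 0) (x 1) (x 2) (x 3) (x 4) :=
  ⟨⟨x.injective.ne (by decide), x.injective.ne (by decide), x.injective.ne (by decide),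
    x.injective.ne (by decide), x.injective.ne (by decide), x.injective.ne (by decide)⟩,
    x.injective.ne (by decide), x.injective.ne (by decide), x.injective.ne (by decide),
    x.injective.ne (by decide)⟩

theorem Nd4.map {Ω : Type u} {a b c d : Ω} (h : Nd4 a b c d) (g : Equiv.Perm Ω) :
    Nd4 (g a) (g b) (g c) (g d) := by
  obtain ⟨h1, h2, h3, h4, h5, h6⟩ := h
  exact ⟨g.injective.ne h1, g.injective.ne h2, g.injective.ne h3, g.injective.ne h4,
    g.injective.ne h5, g.injective.ne h6⟩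

/-- A description of the two orbits on quadruples. -/
structure Rel4 {Ω : Type u} (G : Subgroup (Equiv.Perm Ω)) (R : Ω → Ω → Ω → Ω → Bool) : Prop where
  inv : ∀ g ∈ G, ∀ a b c d, Nd4 a b c d → R (g a) (g b) (g c) (g d) = R a b c d
  trans : ∀ a b c d a' b' c' d', Nd4 a b c d → Nd4 a' b' c' d' → R a b c d = R a' b' c' d' →
    ∃ g ∈ G, g a = a' ∧ g b = b' ∧ g c = c' ∧ g d = d'
  ext : ∃ a b c d, Nd4 a b c d ∧ R a b c d = true
  exf : ∃ a b c d, Nd4 a b c d ∧ R a b c d = false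

theorem Rel4.neg {Ω : Type u} {G : Subgroup (Equiv.Perm Ω)} {R : Ω → Ω → Ω → Ω → Bool}
    (h : Rel4 G R) : Rel4 G (fun a b c d => !R a b c d) where
  inv := fun g hg a b c d hd => by rw [h.inv g hg a b c d hd]
  trans := fun a b c d a' b' c' d' h1 h2 h3 =>
    h.trans a b c d a' b' c' d' h1 h2 (by simpa using h3)
  ext := by
    obtain ⟨a, b, c, d, h1, h2⟩ := h.exf
    exact ⟨a, b, c, d, h1, by simp [h2]⟩
  exf := by
    obtain ⟨a, b, c, d, h1, h2⟩ := h.ext
    exact ⟨a, b, c, d, h1, by simp [h2]⟩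

theorem three_trans {Ω : Type u} {G : Subgroup (Equiv.Perm Ω)} (h3 : orbitCount G 3 = 1)
    (a b c a' b' c' : Ω) (h : a ≠ b ∧ a ≠ c ∧ b ≠ c) (h' : a' ≠ b' ∧ a' ≠ c' ∧ b' ≠ c') :
    ∃ g ∈ G, g a = a' ∧ g b = b' ∧ g c = c' := by
  have h1 : Subsingleton (Quotient (tupleSetoid G 3)) :=
    (Nat.card_eq_one_iff_unique.1 h3).1
  obtain ⟨g, hg, hgx⟩ : ∃ g ∈ G, ∀ i, g (mk3 a b c h i) = mk3 a' b' c' h' i :=
    Quotient.exact (Subsingleton.elim (Quotient.mk (tupleSetoid G 3) (mk3 a b c h))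
      (Quotient.mk (tupleSetoid G 3) (mk3 a' b' c' h')))
  exact ⟨g, hg, hgx 0, hgx 1, hgx 2⟩

theorem exists_rel4 {Ω : Type u} {G : Subgroup (Equiv.Perm Ω)} (h4 : orbitCount G 4 = 2) :
    ∃ R : Ω → Ω → Ω → Ω → Bool, Rel4 G R := by
  classical
  obtain ⟨u, v, huv, huniv⟩ := Nat.card_eq_two_iff.1 h4
  have hv : ∀ q : Quotient (tupleSetoid G 4), q ≠ u → q = v := by
    intro q hq
    have : q ∈ ({u, v} : Set _) := by rw [huniv]; trivial
    rcases this with h | h
    · exact absurd h hq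
    · exact h
  let R : Ω → Ω → Ω → Ω → Bool := fun a b c d =>
    if h : Nd4 a b c d then decide (Quotient.mk (tupleSetoid G 4) (mk4 a b c d h) = u) else false
  have hR : ∀ a b c d (h : Nd4 a b c d), R a b c d =
      decide (Quotient.mk (tupleSetoid G 4) (mk4 a b c d h) = u) := by
    intro a b c d h
    simp only [R, dif_pos h]
  refine ⟨R, ?_, ?_, ?_, ?_⟩
  · intro g hg a b c d h
    rw [hR _ _ _ _ h, hR _ _ _ _ (h.map g)]
    have : Quotient.mk (tupleSetoid G 4) (mk4 (g a) (g b) (g c) (g d) (h.map g)) =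
        Quotient.mk (tupleSetoid G 4) (mk4 a b c d h) := by
      apply Quotient.sound
      refine ⟨g⁻¹, G.inv_mem hg, ?_⟩
      have h1 : ∀ w, g⁻¹ (g w) = w := fun w => g.symm_apply_apply w
      intro i
      fin_cases i
      · exact h1 a
      · exact h1 b
      · exact h1 c
      · exact h1 d
    rw [this]
  · intro a b c d a' b' c' d' h h' heq
    rw [hR _ _ _ _ h, hR _ _ _ _ h'] at heq
    have hq : Quotient.mk (tupleSetoid G 4) (mk4 a b c d h) =
        Quotient.mk (tupleSetoid G 4) (mk4 a' b' c' d' h') := by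
      by_cases h1 : Quotient.mk (tupleSetoid G 4) (mk4 a b c d h) = u
      · have h2 : Quotient.mk (tupleSetoid G 4) (mk4 a' b' c' d' h') = u := by
          rw [h1] at heq
          simpa using heq
        rw [h1, h2]
      · have h2 : Quotient.mk (tupleSetoid G 4) (mk4 a' b' c' d' h') ≠ u := by
          intro h3
          rw [h3] at heq
          exact h1 (by simpa using heq)
        rw [hv _ h1, hv _ h2]
    obtain ⟨g, hg, hgx⟩ : ∃ g ∈ G, ∀ i, g (mk4 a b c d h i) = mk4 a' b' c' d' h' i :=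
      Quotient.exact hq
    exact ⟨g, hg, hgx 0, hgx 1, hgx 2, hgx 3⟩
  · induction u using Quotient.inductionOn with
    | h x =>
      refine ⟨x 0, x 1, x 2, x 3, nd4_of x, ?_⟩
      rw [hR _ _ _ _ (nd4_of x), decide_eq_true_iff]
      congr 1
      apply DFunLike.ext
      intro i
      fin_cases i <;> rfl
  · induction v using Quotient.inductionOn with
    | h x =>
      refine ⟨x 0, x 1, x 2, x 3, nd4_of x, ?_⟩
      rw [hR _ _ _ _ (nd4_of x), decide_eq_false_iff_not]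
      have : mk4 (x 0) (x 1) (x 2) (x 3) (nd4_of x) = x := by
        apply DFunLike.ext
        intro i
        fin_cases i <;> rfl
      rw [this]
      exact huv.symm

/-- An involution of coordinates preserves or exchanges the two orbits. -/
theorem Rel4.dich {Ω : Type u} {G : Subgroup (Equiv.Perm Ω)} {R : Ω → Ω → Ω → Ω → Bool}
    (h : Rel4 G R) (s1 s2 s3 s4 : Ω → Ω → Ω → Ω → Ω)
    (hinv : ∀ a b c d, s1 (s1 a b c d) (s2 a b c d) (s3 a b c d) (s4 a b c d) = a ∧
      s2 (s1 a b c d) (s2 a b c d) (s3 a b c d) (s4 a b c d) = b ∧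
      s3 (s1 a b c d) (s2 a b c d) (s3 a b c d) (s4 a b c d) = c ∧
      s4 (s1 a b c d) (s2 a b c d) (s3 a b c d) (s4 a b c d) = d)
    (hnat : ∀ (g : Equiv.Perm Ω) a b c d, s1 (g a) (g b) (g c) (g d) = g (s1 a b c d) ∧
      s2 (g a) (g b) (g c) (g d) = g (s2 a b c d) ∧
      s3 (g a) (g b) (g c) (g d) = g (s3 a b c d) ∧
      s4 (g a) (g b) (g c) (g d) = g (s4 a b c d))
    (hnd : ∀ a b c d, Nd4 a b c d → Nd4 (s1 a b c d) (s2 a b c d) (s3 a b c d) (s4 a b c d)) :
    (∀ a b c d, Nd4 a b c d →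
      R (s1 a b c d) (s2 a b c d) (s3 a b c d) (s4 a b c d) = R a b c d) ∨
    (∀ a b c d, Nd4 a b c d →
      R (s1 a b c d) (s2 a b c d) (s3 a b c d) (s4 a b c d) = !R a b c d) := by
  have hsame : ∀ a b c d a' b' c' d', Nd4 a b c d → Nd4 a' b' c' d' → R a b c d = R a' b' c' d' →
      R (s1 a b c d) (s2 a b c d) (s3 a b c d) (s4 a b c d) =
        R (s1 a' b' c' d') (s2 a' b' c' d') (s3 a' b' c' d') (s4 a' b' c' d') := by
    intro a b c d a' b' c' d' h1 h2 h3
    obtain ⟨g, hg, rfl, rfl, rfl, rfl⟩ := h.trans _ _ _ _ _ _ _ _ h1 h2 h3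
    obtain ⟨e1, e2, e3, e4⟩ := hnat g a b c d
    rw [e1, e2, e3, e4, h.inv g hg _ _ _ _ (hnd _ _ _ _ h1)]
  obtain ⟨a0, b0, c0, d0, hd0, h0⟩ := h.ext
  by_cases hc : R (s1 a0 b0 c0 d0) (s2 a0 b0 c0 d0) (s3 a0 b0 c0 d0) (s4 a0 b0 c0 d0) = true
  · left
    have hT : ∀ a b c d, Nd4 a b c d → R a b c d = true →
        R (s1 a b c d) (s2 a b c d) (s3 a b c d) (s4 a b c d) = true := by
      intro a b c d hd h1
      rw [hsame a b c d a0 b0 c0 d0 hd hd0 (by rw [h0, h1]), hc]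
    intro a b c d hd
    by_cases h1 : R a b c d = true
    · rw [h1, hT a b c d hd h1]
    · have h2 : R (s1 a b c d) (s2 a b c d) (s3 a b c d) (s4 a b c d) ≠ true := by
        intro h3
        have h4 := hT _ _ _ _ (hnd _ _ _ _ hd) h3
        obtain ⟨e1, e2, e3, e4⟩ := hinv a b c d
        rw [e1, e2, e3, e4] at h4
        exact h1 h4
      have h3 : R (s1 a b c d) (s2 a b c d) (s3 a b c d) (s4 a b c d) = false := by
        simpa using h2
      rw [Bool.not_eq_true] at h1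
      rw [h1, h3]
  · right
    rw [Bool.not_eq_true] at hc
    intro a b c d hd
    by_cases h1 : R a b c d = true
    · rw [hsame a b c d a0 b0 c0 d0 hd hd0 (by rw [h0, h1]), hc, h1]
      rfl
    · rw [Bool.not_eq_true] at h1
      have h2 := hsame a b c d _ _ _ _ hd (hnd _ _ _ _ hd0) (by rw [h1, hc])
      obtain ⟨e1, e2, e3, e4⟩ := hinv a0 b0 c0 d0
      rw [e1, e2, e3, e4] at h2
      rw [h2, h0, h1]
      rfl

theorem Nd4.s12 {Ω : Type u} {a b c d : Ω} (h : Nd4 a b c d) : Nd4 b a c d := by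
  obtain ⟨h1, h2, h3, h4, h5, h6⟩ := h
  exact ⟨h1.symm, h4, h5, h2, h3, h6⟩

theorem Nd4.s23 {Ω : Type u} {a b c d : Ω} (h : Nd4 a b c d) : Nd4 a c b d := by
  obtain ⟨h1, h2, h3, h4, h5, h6⟩ := h
  exact ⟨h2, h1, h3, h4.symm, h6, h5⟩

theorem Nd4.s34 {Ω : Type u} {a b c d : Ω} (h : Nd4 a b c d) : Nd4 a b d c := by
  obtain ⟨h1, h2, h3, h4, h5, h6⟩ := h
  exact ⟨h1, h3, h2, h5, h4, h6.symm⟩

/-- The relation is symmetric or alternating. -/
theorem Rel4.sym_or_alt {Ω : Type u} {G : Subgroup (Equiv.Perm Ω)} {R : Ω → Ω → Ω → Ω → Bool}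
    (h : Rel4 G R) :
    (∀ a b c d, Nd4 a b c d → R b a c d = R a b c d ∧ R a c b d = R a b c d ∧
      R a b d c = R a b c d) ∨
    (∀ a b c d, Nd4 a b c d → R b a c d = (!R a b c d) ∧ R a c b d = (!R a b c d) ∧
      R a b d c = (!R a b c d)) := by
  have d1 := h.dich (fun a b c d => b) (fun a b c d => a) (fun a b c d => c) (fun a b c d => d)
    (fun _ _ _ _ => ⟨rfl, rfl, rfl, rfl⟩) (fun _ _ _ _ _ => ⟨rfl, rfl, rfl, rfl⟩)
    (fun _ _ _ _ h => h.s12)
  have d2 := h.dich (fun a b c d => a) (fun a b c d => c) (fun a b c d => b) (fun a b c d => d)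
    (fun _ _ _ _ => ⟨rfl, rfl, rfl, rfl⟩) (fun _ _ _ _ _ => ⟨rfl, rfl, rfl, rfl⟩)
    (fun _ _ _ _ h => h.s23)
  have d3 := h.dich (fun a b c d => a) (fun a b c d => b) (fun a b c d => d) (fun a b c d => c)
    (fun _ _ _ _ => ⟨rfl, rfl, rfl, rfl⟩) (fun _ _ _ _ _ => ⟨rfl, rfl, rfl, rfl⟩)
    (fun _ _ _ _ h => h.s34)
  obtain ⟨a, b, c, d, hd, _⟩ := h.ext
  rcases d1 with d1 | d1
  · rcases d2 with d2 | d2
    · rcases d3 with d3 | d3
      · left
        intro a b c d hd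
        exact ⟨d1 a b c d hd, d2 a b c d hd, d3 a b c d hd⟩
      · exfalso
        -- s23 fixes, s34 flips
        have e1 := d2 a b c d hd
        have e2 := d3 a c b d hd.s23
        have e3 := d2 a c d b hd.s23.s34
        have f1 := d3 a b c d hd
        have f2 := d2 a b d c hd.s34
        have f3 := d3 a d b c hd.s34.s23
        rw [e3, e2, e1, f2, f1] at f3
        simp at f3
    · exfalso
      have e1 := d1 a b c d hd
      have e2 := d2 b a c d hd.s12
      have e3 := d1 b c a d hd.s12.s23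
      have f1 := d2 a b c d hd
      have f2 := d1 a c b d hd.s23
      have f3 := d2 c a b d hd.s23.s12
      rw [e3, e2, e1, f2, f1] at f3
      simp at f3
  · rcases d2 with d2 | d2
    · exfalso
      have e1 := d1 a b c d hd
      have e2 := d2 b a c d hd.s12
      have e3 := d1 b c a d hd.s12.s23
      have f1 := d2 a b c d hd
      have f2 := d1 a c b d hd.s23
      have f3 := d2 c a b d hd.s23.s12
      rw [e3, e2, e1, f2, f1] at f3
      simp at f3
    · rcases d3 with d3 | d3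
      · exfalso
        have e1 := d2 a b c d hd
        have e2 := d3 a c b d hd.s23
        have e3 := d2 a c d b hd.s23.s34
        have f1 := d3 a b c d hd
        have f2 := d2 a b d c hd.s34
        have f3 := d3 a d b c hd.s34.s23
        rw [e3, e2, e1, f2, f1] at f3
        simp at f3
      · right
        intro a b c d hd
        exact ⟨d1 a b c d hd, d2 a b c d hd, d3 a b c d hd⟩

end Pool.Agent.Helper798.FSeq
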