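import Mathlib
import Pool.Agent.Helper798.FSeq.Four

set_option autoImplicit false
set_option maxRecDepth 100000

namespace Pool.Agent.Helper798.FSeq

open Finset

universe u

abbrev P5 : Type := Bool × Bool × Bool × Bool × Bool

def r1 (k : Bool) (p : P5) : P5 :=
  (p.2.1, p.1, xor k p.2.2.1, xor k p.2.2.2.1, xor k p.2.2.2.2)
def r2 (k : Bool) (p : P5) : P5 :=
  (xor k p.1, xor k p.2.1, xor k p.2.2.1, p.2.2.2.2, p.2.2.2.1)
def r3 (k : Bool) (p : P5) : P5 :=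
  (xor k p.1, xor k p.2.1, p.2.2.2.1, p.2.2.1, xor k p.2.2.2.2)
def r4 (k : Bool) (p : P5) : P5 :=
  (xor k p.1, p.2.2.1, p.2.1, xor k p.2.2.2.1, xor k p.2.2.2.2)

def stp (k : Bool) (s : Finset P5) : Finset P5 :=
  s ∪ s.image (r1 k) ∪ s.image (r2 k) ∪ s.image (r3 k) ∪ s.image (r4 k)

def wt (p : P5) : ℕ :=
  p.1.toNat + p.2.1.toNat + p.2.2.1.toNat + p.2.2.2.1.toNat + p.2.2.2.2.toNat

theorem alt_big : ∀ p : P5, p.1 = p.2.1 → 7 ≤ (stp true (stp true (stp true {p}))).card := by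
  decide +kernel

theorem sym_23 : ∀ p : P5, wt p = 2 ∨ wt p = 3 →
    7 ≤ (stp false (stp false (stp false (stp false {p})))).card := by
  decide +kernel

theorem sym_14 : ∀ p : P5, wt p = 1 → ∀ q : P5, wt q = 4 →
    7 ≤ (stp false (stp false (stp false {p, q}))).card := by
  decide +kernel

theorem sym_105 : ∀ p : P5, wt p = 1 ∨ wt p = 4 →
    7 ≤ (stp false (stp false (stp false (stp false {p, (false, false, false, false, false),
      (true, true, true, true, true)})))).card := by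
  decide +kernel

theorem wt_zero : ∀ p : P5, wt p = 0 → p = (false, false, false, false, false) := by
  decide +kernel

theorem wt_five : ∀ p : P5, wt p = 5 → p = (true, true, true, true, true) := by
  decide +kernel

theorem sym_one : ∀ p : P5, wt p = 1 →
    ((false, false, false, false, true) : P5) ∈
      stp false (stp false (stp false (stp false {p}))) := by
  decide +kernel

theorem wt_cases : ∀ p : P5, wt p = 0 ∨ wt p = 1 ∨ wt p = 2 ∨ wt p = 3 ∨ wt p = 4 ∨ wt p = 5 := by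
  decide +kernel

/-- The pattern of a quintuple. -/
def pat {Ω : Type u} (R : Ω → Ω → Ω → Ω → Bool) (a b c d e : Ω) : P5 :=
  (R a b c d, R a b c e, R a b d e, R a c d e, R b c d e)

/-- The realised patterns. -/
def CP {Ω : Type u} (R : Ω → Ω → Ω → Ω → Bool) : Set P5 :=
  {p | ∃ a b c d e, Nd5 a b c d e ∧ pat R a b c d e = p}

/-- Parity type of the relation. -/
def Chi {Ω : Type u} (R : Ω → Ω → Ω → Ω → Bool) (k : Bool) : Prop :=
  ∀ a b c d, Nd4 a b c d → R b a c d = xor k (R a b c d) ∧ R a c b d = xor k (R a b c d) ∧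
      R a b d c = xor k (R a b c d)

section five

variable {Ω : Type u} {G : Subgroup (Equiv.Perm Ω)} {R : Ω → Ω → Ω → Ω → Bool}

theorem CP_card (h : Rel4 G R) (h5 : orbitCount G 5 ≤ 6) (h5' : orbitCount G 5 ≠ 0) :
    (CP R).ncard ≤ 6 := by
  have h1 : CP R = Set.range (fun x : Fin 5 ↪ Ω => pat R (x 0) (x 1) (x 2) (x 3) (x 4)) := by
    ext p
    constructor
    · rintro ⟨a, b, c, d, e, hd, rfl⟩
      exact ⟨mk5 a b c d e hd, rfl⟩
    · rintro ⟨x, rfl⟩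
      exact ⟨_, _, _, _, _, nd5_of x, rfl⟩
  rw [h1]
  refine (ncard_le (G := G) _ ?_ h5').trans h5
  rintro x y ⟨g, hg, hgx⟩
  have hx := nd5_of x
  obtain ⟨⟨n1, n2, n3, n4, n5, n6⟩, n7, n8, n9, n10⟩ := hx
  rw [← hgx 0, ← hgx 1, ← hgx 2, ← hgx 3, ← hgx 4]
  simp only [pat]
  rw [h.inv g hg _ _ _ _ ⟨n1, n2, n3, n4, n5, n6⟩, h.inv g hg _ _ _ _ ⟨n1, n2, n7, n4, n8, n9⟩,
    h.inv g hg _ _ _ _ ⟨n1, n3, n7, n5, n8, n10⟩, h.inv g hg _ _ _ _ ⟨n2, n3, n7, n6, n9, n10⟩,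
    h.inv g hg _ _ _ _ ⟨n4, n5, n8, n6, n9, n10⟩]

theorem Nd5.a1 {a b c d e : Ω} (h : Nd5 a b c d e) : Nd4 a b c d := h.1
theorem Nd5.a2 {a b c d e : Ω} (h : Nd5 a b c d e) : Nd4 a b c e := by
  obtain ⟨⟨n1, n2, n3, n4, n5, n6⟩, n7, n8, n9, n10⟩ := h
  exact ⟨n1, n2, n7, n4, n8, n9⟩
theorem Nd5.a3 {a b c d e : Ω} (h : Nd5 a b c d e) : Nd4 a b d e := by
  obtain ⟨⟨n1, n2, n3, n4, n5, n6⟩, n7, n8, n9, n10⟩ := h
  exact ⟨n1, n3, n7, n5, n8, n10⟩
theorem Nd5.a4 {a b c d e : Ω} (h : Nd5 a b c d e) : Nd4 a c d e := by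
  obtain ⟨⟨n1, n2, n3, n4, n5, n6⟩, n7, n8, n9, n10⟩ := h
  exact ⟨n2, n3, n7, n6, n9, n10⟩
theorem Nd5.a5 {a b c d e : Ω} (h : Nd5 a b c d e) : Nd4 b c d e := by
  obtain ⟨⟨n1, n2, n3, n4, n5, n6⟩, n7, n8, n9, n10⟩ := h
  exact ⟨n4, n5, n8, n6, n9, n10⟩

theorem CP_r1 {k : Bool} (hk : Chi R k) {p : P5} (hp : p ∈ CP R) : r1 k p ∈ CP R := by
  obtain ⟨a, b, c, d, e, hd, rfl⟩ := hp
  refine ⟨a, b, c, e, d, ?_, ?_⟩
  · obtain ⟨⟨n1, n2, n3, n4, n5, n6⟩, n7, n8, n9, n10⟩ := hd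
    exact ⟨⟨n1, n2, n7, n4, n8, n9⟩, n3, n5, n6, n10.symm⟩
  · simp only [pat, r1]
    rw [(hk _ _ _ _ hd.a3).2.2, (hk _ _ _ _ hd.a4).2.2, (hk _ _ _ _ hd.a5).2.2]

theorem CP_r2 {k : Bool} (hk : Chi R k) {p : P5} (hp : p ∈ CP R) : r2 k p ∈ CP R := by
  obtain ⟨a, b, c, d, e, hd, rfl⟩ := hp
  refine ⟨b, a, c, d, e, ?_, ?_⟩
  · obtain ⟨⟨n1, n2, n3, n4, n5, n6⟩, n7, n8, n9, n10⟩ := hd
    exact ⟨⟨n1.symm, n4, n5, n2, n3, n6⟩, n8, n7, n9, n10⟩
  · simp only [pat, r2]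
    rw [(hk _ _ _ _ hd.a1).1, (hk _ _ _ _ hd.a2).1, (hk _ _ _ _ hd.a3).1]

theorem CP_r3 {k : Bool} (hk : Chi R k) {p : P5} (hp : p ∈ CP R) : r3 k p ∈ CP R := by
  obtain ⟨a, b, c, d, e, hd, rfl⟩ := hp
  refine ⟨a, c, b, d, e, ?_, ?_⟩
  · obtain ⟨⟨n1, n2, n3, n4, n5, n6⟩, n7, n8, n9, n10⟩ := hd
    exact ⟨⟨n2, n1, n3, n4.symm, n6, n5⟩, n7, n9, n8, n10⟩
  · simp only [pat, r3]
    rw [(hk _ _ _ _ hd.a1).2.1, (hk _ _ _ _ hd.a2).2.1, (hk _ _ _ _ hd.a5).1]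

theorem CP_r4 {k : Bool} (hk : Chi R k) {p : P5} (hp : p ∈ CP R) : r4 k p ∈ CP R := by
  obtain ⟨a, b, c, d, e, hd, rfl⟩ := hp
  refine ⟨a, b, d, c, e, ?_, ?_⟩
  · obtain ⟨⟨n1, n2, n3, n4, n5, n6⟩, n7, n8, n9, n10⟩ := hd
    exact ⟨⟨n1, n3, n2, n5, n4, n6.symm⟩, n7, n8, n10, n9⟩
  · simp only [pat, r4]
    rw [(hk _ _ _ _ hd.a1).2.2, (hk _ _ _ _ hd.a4).2.1, (hk _ _ _ _ hd.a5).2.1]

theorem CP_stp {k : Bool} (hk : Chi R k) {s : Finset P5} (hs : (s : Set P5) ⊆ CP R) :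
    (stp k s : Set P5) ⊆ CP R := by
  intro p hp
  rw [Finset.mem_coe, stp] at hp
  simp only [Finset.mem_union, Finset.mem_image] at hp
  rcases hp with (((hp | ⟨q, hq, rfl⟩) | ⟨q, hq, rfl⟩) | ⟨q, hq, rfl⟩) | ⟨q, hq, rfl⟩
  · exact hs hp
  · exact CP_r1 hk (hs hq)
  · exact CP_r2 hk (hs hq)
  · exact CP_r3 hk (hs hq)
  · exact CP_r4 hk (hs hq)

theorem card_le_of_sub (h6 : (CP R).ncard ≤ 6) {s : Finset P5} (hs : (s : Set P5) ⊆ CP R) :
    s.card ≤ 6 := by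
  have h1 := Set.ncard_le_ncard hs (Set.toFinite _)
  rw [Set.ncard_coe_finset] at h1
  omega

/-- The alternating case is impossible. -/
theorem not_alt [Infinite Ω] (h6 : (CP R).ncard ≤ 6) : ¬ Chi R true := by
  intro hk
  obtain ⟨x⟩ : Nonempty (Fin 6 ↪ Ω) := ⟨(Fin.valEmbedding).trans (Infinite.natEmbedding Ω)⟩
  have hne : ∀ i j : Fin 6, i ≠ j → x i ≠ x j := fun i j h => x.injective.ne h
  have key : ∀ p ∈ CP R, p.1 ≠ p.2.1 := by
    intro p hp hpp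
    have h1 : (({p} : Finset P5) : Set P5) ⊆ CP R := by
      rw [Finset.coe_singleton, Set.singleton_subset_iff]; exact hp
    have h2 := card_le_of_sub h6 (CP_stp hk (CP_stp hk (CP_stp hk h1)))
    have h3 := alt_big p hpp
    omega
  have k1 := key _ ⟨x 0, x 1, x 2, x 3, x 4, ⟨⟨hne _ _ (by decide), hne _ _ (by decide),
    hne _ _ (by decide), hne _ _ (by decide), hne _ _ (by decide), hne _ _ (by decide)⟩,
    hne _ _ (by decide), hne _ _ (by decide), hne _ _ (by decide), hne _ _ (by decide)⟩, rfl⟩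
  have k2 := key _ ⟨x 0, x 1, x 2, x 3, x 5, ⟨⟨hne _ _ (by decide), hne _ _ (by decide),
    hne _ _ (by decide), hne _ _ (by decide), hne _ _ (by decide), hne _ _ (by decide)⟩,
    hne _ _ (by decide), hne _ _ (by decide), hne _ _ (by decide), hne _ _ (by decide)⟩, rfl⟩
  have k3 := key _ ⟨x 0, x 1, x 2, x 4, x 5, ⟨⟨hne _ _ (by decide), hne _ _ (by decide),
    hne _ _ (by decide), hne _ _ (by decide), hne _ _ (by decide), hne _ _ (by decide)⟩,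
    hne _ _ (by decide), hne _ _ (by decide), hne _ _ (by decide), hne _ _ (by decide)⟩, rfl⟩
  simp only [pat] at k1 k2 k3
  revert k1 k2 k3
  generalize R (x 0) (x 1) (x 2) (x 3) = u
  generalize R (x 0) (x 1) (x 2) (x 4) = v
  generalize R (x 0) (x 1) (x 2) (x 5) = w
  revert u v w
  decide

/-- Weights in the symmetric case. -/
theorem sym_weights (h : Rel4 G R) (h3 : orbitCount G 3 = 1) (h6 : (CP R).ncard ≤ 6)
    (hk : Chi R false) :
    (∀ p ∈ CP R, wt p ≠ 2 ∧ wt p ≠ 3) ∧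
    (∀ p ∈ CP R, ∀ q ∈ CP R, wt p = 1 → wt q ≠ 4) ∧
    (∃ p ∈ CP R, wt p = 1 ∨ wt p = 4) ∧
    ¬ ((false, false, false, false, false) ∈ CP R ∧ (true, true, true, true, true) ∈ CP R) := by
  have A : ∀ p ∈ CP R, wt p ≠ 2 ∧ wt p ≠ 3 := by
    intro p hp
    by_contra hc
    have hc' : wt p = 2 ∨ wt p = 3 := by
      by_contra hc2
      exact hc ⟨fun h => hc2 (Or.inl h), fun h => hc2 (Or.inr h)⟩
    have h1 : (({p} : Finset P5) : Set P5) ⊆ CP R := by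
      rw [Finset.coe_singleton, Set.singleton_subset_iff]; exact hp
    have h2 := card_le_of_sub h6 (CP_stp hk (CP_stp hk (CP_stp hk (CP_stp hk h1))))
    have h3 := sym_23 p hc'
    omega
  have D : ∃ p ∈ CP R, wt p = 1 ∨ wt p = 4 := by
    obtain ⟨a, b, c, d, hd, hT⟩ := h.ext
    obtain ⟨a', b', c', d', hd', hF⟩ := h.exf
    obtain ⟨g, hg, ha, hb, hc⟩ := three_trans h3 a' b' c' a b c ⟨hd'.1, hd'.2.1, hd'.2.2.2.1⟩
      ⟨hd.1, hd.2.1, hd.2.2.2.1⟩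
    have hF' := h.inv g hg _ _ _ _ hd'
    have hnd := hd'.map g
    rw [ha, hb, hc] at hF' hnd
    rw [hF] at hF'
    have hne : d ≠ g d' := by
      intro h1
      rw [← h1, hT] at hF'
      exact absurd hF' (by decide)
    have hd5 : Nd5 a b c d (g d') := ⟨hd, hnd.2.2.1, hnd.2.2.2.2.1, hnd.2.2.2.2.2, hne⟩
    refine ⟨pat R a b c d (g d'), ⟨_, _, _, _, _, hd5, rfl⟩, ?_⟩
    have hmem : pat R a b c d (g d') ∈ CP R := ⟨_, _, _, _, _, hd5, rfl⟩
    have hw := A _ hmem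
    have e1 : (pat R a b c d (g d')).1 = true := hT
    have e2 : (pat R a b c d (g d')).2.1 = false := hF'
    revert hw e1 e2
    generalize pat R a b c d (g d') = p
    revert p
    decide +kernel
  refine ⟨A, ?_, D, ?_⟩
  · intro p hp q hq hp1 hq4
    have h1 : (({p, q} : Finset P5) : Set P5) ⊆ CP R := by
      rw [Finset.coe_pair]
      rintro r (rfl | rfl)
      · exact hp
      · exact hq
    have h2 := card_le_of_sub h6 (CP_stp hk (CP_stp hk (CP_stp hk h1)))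
    have h3 := sym_14 p hp1 q hq4
    omega
  · rintro ⟨h0, h5⟩
    obtain ⟨p, hp, hpw⟩ := D
    have h1 : (({p, (false, false, false, false, false),
      (true, true, true, true, true)} : Finset P5) : Set P5) ⊆ CP R := by
      intro r hr
      rw [Finset.mem_coe] at hr
      simp only [Finset.mem_insert, Finset.mem_singleton] at hr
      rcases hr with rfl | rfl | rfl
      · exact hp
      · exact h0
      · exact h5
    have h2 := card_le_of_sub h6 (CP_stp hk (CP_stp hk (CP_stp hk (CP_stp hk h1))))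
    have h3 := sym_105 p hpw
    omega

end five

end Pool.Agent.Helper798.FSeq
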