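import Mathlib
import Pool.Agent.Helper798.FSeq.Five

set_option autoImplicit false
set_option maxRecDepth 100000

namespace Pool.Agent.Helper798.FSeq

open Finset

universe u

theorem no_graph : ∀ g12 g13 g14 g15 g23 g24 g25 g34 g35 g45 : Bool,
    ¬ (wt (false, false, g12, g13, g23) = 1 ∧ wt (false, false, g12, g14, g24) = 1 ∧
      wt (false, false, g13, g14, g34) = 1 ∧ wt (false, false, g23, g24, g34) = 1 ∧
      wt (false, false, g12, g15, g25) = 1 ∧ wt (false, false, g13, g15, g35) = 1 ∧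
      wt (false, false, g23, g25, g35) = 1 ∧ wt (false, false, g14, g15, g45) = 1 ∧
      wt (false, false, g24, g25, g45) = 1 ∧ wt (false, false, g34, g35, g45) = 1) := by
  decide +kernel

theorem prop_step : ∀ p : P5, (wt p = 1 ∨ wt p = 5) → p.1 = true → p.2.1 = false →
    p.2.2.1 = false ∧ p.2.2.2.1 = false ∧ p.2.2.2.2 = false := by
  decide +kernel

theorem pair_step : ∀ p : P5, (wt p = 1 ∨ wt p = 5) → p.1 = false → p.2.1 = false →
    wt (false, false, p.2.2.1, p.2.2.2.1, p.2.2.2.2) = 1 := by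
  decide +kernel

section steiner

variable {Ω : Type u} {G : Subgroup (Equiv.Perm Ω)} {T : Ω → Ω → Ω → Ω → Bool}

theorem no_five (h : Rel4 G T) (h3 : orbitCount G 3 = 1) (hk : Chi T false)
    (hone : ∃ p ∈ CP T, wt p = 1) (hw : ∀ p ∈ CP T, wt p = 1 ∨ wt p = 5) :
    ∀ p ∈ CP T, wt p ≠ 5 := by
  rintro p ⟨a, b, c, d, e, hd, rfl⟩ h5
  -- a triple with two bad fourth points
  obtain ⟨p0, hp0, hp0w⟩ := hone
  have hmem : ((false, false, false, false, true) : P5) ∈ CP T := by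
    have h1 : (({p0} : Finset P5) : Set P5) ⊆ CP T := by
      rw [Finset.coe_singleton, Set.singleton_subset_iff]; exact hp0
    exact CP_stp hk (CP_stp hk (CP_stp hk (CP_stp hk h1))) (sym_one p0 hp0w)
  obtain ⟨a', b', c', d', e', hd', hpat'⟩ := hmem
  have b1 : T a' b' c' d' = false := congrArg Prod.fst hpat'
  have b2 : T a' b' c' e' = false := congrArg (fun p => Prod.fst (Prod.snd p)) hpat'
  obtain ⟨g, hg, ha, hb, hc⟩ := three_trans h3 a' b' c' a b c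
    ⟨hd'.1.1, hd'.1.2.1, hd'.1.2.2.2.1⟩ ⟨hd.1.1, hd.1.2.1, hd.1.2.2.2.1⟩
  have i1 := h.inv g hg _ _ _ _ hd'.a1
  have i2 := h.inv g hg _ _ _ _ hd'.a2
  have n1 := hd'.a1.map g
  have n2 := hd'.a2.map g
  have n3 : g d' ≠ g e' := g.injective.ne hd'.2.2.2.2
  rw [ha, hb, hc] at i1 i2 n1 n2
  rw [b1] at i1
  rw [b2] at i2
  revert i1 i2 n1 n2 n3
  generalize g d' = p
  generalize g e' = q
  intro i1 i2 n1 n2 n3
  have hall := wt_five _ h5
  have t1 : T a b c d = true := congrArg Prod.fst hall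
  have t2 : T a b c e = true := congrArg (fun p => Prod.fst (Prod.snd p)) hall
  have t3 : T a b d e = true := congrArg (fun p => Prod.fst (Prod.snd (Prod.snd p))) hall
  have t4 : T a c d e = true :=
    congrArg (fun p => Prod.fst (Prod.snd (Prod.snd (Prod.snd p)))) hall
  have t5 : T b c d e = true :=
    congrArg (fun p => Prod.snd (Prod.snd (Prod.snd (Prod.snd p)))) hall
  obtain ⟨⟨m1, m2, m3, m4, m5, m6⟩, m7, m8, m9, m10⟩ := hd
  -- both bad points are new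
  have new : ∀ r, Nd4 a b c r → T a b c r = false → r ≠ d ∧ r ≠ e := by
    intro r _ hr
    constructor
    · rintro rfl
      rw [t1] at hr
      exact absurd hr (by decide)
    · rintro rfl
      rw [t2] at hr
      exact absurd hr (by decide)
  have all10 : ∀ r, Nd4 a b c r → T a b c r = false →
      T a b c r = false ∧ T a b d r = false ∧ T a c d r = false ∧ T b c d r = false ∧
      T a b e r = false ∧ T a c e r = false ∧ T b c e r = false ∧ T a d e r = false ∧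
      T b d e r = false ∧ T c d e r = false := by
    intro r hr hTr
    obtain ⟨hrd, hre⟩ := new r hr hTr
    obtain ⟨_, _, ar, _, br, cr⟩ := hr
    have s1 := prop_step (pat T a b c d r) (hw _ ⟨_, _, _, _, _,
      ⟨⟨m1, m2, m3, m4, m5, m6⟩, ar, br, cr, hrd.symm⟩, rfl⟩) t1 hTr
    have s2 := prop_step (pat T a b c e r) (hw _ ⟨_, _, _, _, _,
      ⟨⟨m1, m2, m7, m4, m8, m9⟩, ar, br, cr, hre.symm⟩, rfl⟩) t2 hTr
    have s3 := prop_step (pat T a b d e r) (hw _ ⟨_, _, _, _, _,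
      ⟨⟨m1, m3, m7, m5, m8, m10⟩, ar, br, hrd.symm, hre.symm⟩, rfl⟩) t3 s1.1
    have s4 := prop_step (pat T a c d e r) (hw _ ⟨_, _, _, _, _,
      ⟨⟨m2, m3, m7, m6, m9, m10⟩, ar, cr, hrd.symm, hre.symm⟩, rfl⟩) t4 s1.2.1
    exact ⟨hTr, s1.1, s1.2.1, s1.2.2, s2.1, s2.2.1, s2.2.2, s3.2.1, s3.2.2, s4.2.2⟩
  obtain ⟨p1, p2, p3, p4, p5, p6, p7, p8, p9, p10⟩ := all10 p n1 i1
  obtain ⟨q1, q2, q3, q4, q5, q6, q7, q8, q9, q10⟩ := all10 q n2 i2
  obtain ⟨pd, pe⟩ := new p n1 i1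
  obtain ⟨qd, qe⟩ := new q n2 i2
  obtain ⟨_, _, ap, _, bp, cp⟩ := n1
  obtain ⟨_, _, aq, _, bq, cq⟩ := n2
  have c1 := pair_step (pat T a b c p q) (hw _ ⟨_, _, _, _, _,
    ⟨⟨m1, m2, ap, m4, bp, cp⟩, aq, bq, cq, n3⟩, rfl⟩) p1 q1
  have c2 := pair_step (pat T a b d p q) (hw _ ⟨_, _, _, _, _,
    ⟨⟨m1, m3, ap, m5, bp, pd.symm⟩, aq, bq, qd.symm, n3⟩, rfl⟩) p2 q2
  have c3 := pair_step (pat T a c d p q) (hw _ ⟨_, _, _, _, _,
    ⟨⟨m2, m3, ap, m6, cp, pd.symm⟩, aq, cq, qd.symm, n3⟩, rfl⟩) p3 q3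
  have c4 := pair_step (pat T b c d p q) (hw _ ⟨_, _, _, _, _,
    ⟨⟨m4, m5, bp, m6, cp, pd.symm⟩, bq, cq, qd.symm, n3⟩, rfl⟩) p4 q4
  have c5 := pair_step (pat T a b e p q) (hw _ ⟨_, _, _, _, _,
    ⟨⟨m1, m7, ap, m8, bp, pe.symm⟩, aq, bq, qe.symm, n3⟩, rfl⟩) p5 q5
  have c6 := pair_step (pat T a c e p q) (hw _ ⟨_, _, _, _, _,
    ⟨⟨m2, m7, ap, m9, cp, pe.symm⟩, aq, cq, qe.symm, n3⟩, rfl⟩) p6 q6
  have c7 := pair_step (pat T b c e p q) (hw _ ⟨_, _, _, _, _,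
    ⟨⟨m4, m8, bp, m9, cp, pe.symm⟩, bq, cq, qe.symm, n3⟩, rfl⟩) p7 q7
  have c8 := pair_step (pat T a d e p q) (hw _ ⟨_, _, _, _, _,
    ⟨⟨m3, m7, ap, m10, pd.symm, pe.symm⟩, aq, qd.symm, qe.symm, n3⟩, rfl⟩) p8 q8
  have c9 := pair_step (pat T b d e p q) (hw _ ⟨_, _, _, _, _,
    ⟨⟨m5, m8, bp, m10, pd.symm, pe.symm⟩, bq, qd.symm, qe.symm, n3⟩, rfl⟩) p9 q9
  have c10 := pair_step (pat T c d e p q) (hw _ ⟨_, _, _, _, _,
    ⟨⟨m6, m9, cp, m10, pd.symm, pe.symm⟩, cq, qd.symm, qe.symm, n3⟩, rfl⟩) p10 q10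
  exact no_graph (T a b p q) (T a c p q) (T a d p q) (T a e p q) (T b c p q) (T b d p q)
    (T b e p q) (T c d p q) (T c e p q) (T d e p q) ⟨c1, c2, c3, c4, c5, c6, c7, c8, c9, c10⟩

theorem T_one (h : Rel4 G T) (h3 : orbitCount G 3 = 1) (h6 : (CP T).ncard ≤ 6)
    (hk : Chi T false) (hone : ∃ p ∈ CP T, wt p = 1) : ∀ p ∈ CP T, wt p ≤ 1 := by
  obtain ⟨A, B, _, C⟩ := sym_weights h h3 h6 hk
  intro p hp
  obtain ⟨p1, hp1, hw1⟩ := hone
  rcases wt_cases p with h0 | h0 | h0 | h0 | h0 | h0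
  · omega
  · omega
  · exact absurd h0 (A p hp).1
  · exact absurd h0 (A p hp).2
  · exact absurd h0 (B p1 hp1 p hp hw1)
  · exfalso
    refine no_five h h3 hk ⟨p1, hp1, hw1⟩ ?_ p hp h0
    intro q hq
    rcases wt_cases q with h0' | h0' | h0' | h0' | h0' | h0'
    · exfalso
      apply C
      rw [← wt_zero q h0', ← wt_five p h0]
      exact ⟨hq, hp⟩
    · exact Or.inl h0'
    · exact absurd h0' (A q hq).1
    · exact absurd h0' (A q hq).2
    · exact absurd h0' (B p1 hp1 q hq hw1)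
    · exact Or.inr h0'

theorem neg_wt : ∀ p : P5, wt (!p.1, !p.2.1, !p.2.2.1, !p.2.2.2.1, !p.2.2.2.2) = 5 - wt p := by
  decide +kernel

theorem exists_T [Infinite Ω] (h3 : orbitCount G 3 = 1) (h4 : orbitCount G 4 = 2)
    (h5 : orbitCount G 5 ≤ 6) (h5' : orbitCount G 5 ≠ 0) :
    ∃ T : Ω → Ω → Ω → Ω → Bool, Rel4 G T ∧ Chi T false ∧ ∀ p ∈ CP T, wt p ≤ 1 := by
  obtain ⟨R, hR⟩ := exists_rel4 h4
  have hc := CP_card hR h5 h5'
  have hk : Chi R false := by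
    rcases hR.sym_or_alt with h | h
    · intro a b c d hd
      obtain ⟨e1, e2, e3⟩ := h a b c d hd
      exact ⟨by rw [e1, Bool.false_xor], by rw [e2, Bool.false_xor], by rw [e3, Bool.false_xor]⟩
    · exfalso
      apply not_alt hc
      intro a b c d hd
      obtain ⟨e1, e2, e3⟩ := h a b c d hd
      exact ⟨by rw [e1, Bool.true_xor], by rw [e2, Bool.true_xor], by rw [e3, Bool.true_xor]⟩
  obtain ⟨_, _, ⟨p, hp, hw⟩, _⟩ := sym_weights hR h3 hc hk
  rcases hw with hw | hw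
  · exact ⟨R, hR, hk, T_one hR h3 hc hk ⟨p, hp, hw⟩⟩
  · have hk' : Chi (fun a b c d => !R a b c d) false := by
      intro a b c d hd
      obtain ⟨e1, e2, e3⟩ := hk a b c d hd
      rw [Bool.false_xor] at e1 e2 e3
      show (!R b a c d) = xor false (!R a b c d) ∧ (!R a c b d) = xor false (!R a b c d) ∧
        (!R a b d c) = xor false (!R a b c d)
      rw [e1, e2, e3, Bool.false_xor]
      exact ⟨rfl, rfl, rfl⟩
    refine ⟨fun a b c d => !R a b c d, hR.neg, hk', ?_⟩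
    · apply T_one hR.neg h3 (CP_card hR.neg h5 h5') hk'
      · obtain ⟨a, b, c, d, e, hd, rfl⟩ := hp
        refine ⟨_, ⟨a, b, c, d, e, hd, rfl⟩, ?_⟩
        have := neg_wt (pat R a b c d e)
        rw [hw] at this
        exact this

end steiner

end Pool.Agent.Helper798.FSeq
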