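import Mathlib
import Pool.Agent.Helper798.FSeq.Steiner

set_option autoImplicit false
set_option maxRecDepth 100000

namespace Pool.Agent.Helper798.FSeq

open Finset

universe u

def Idx : Finset (Fin 6 × Fin 6 × Fin 6 × Fin 6) :=
  univ.filter (fun q => q.1 < q.2.1 ∧ q.2.2.1 < q.2.2.2 ∧ q.1 < q.2.2.1 ∧ q.2.1 ≠ q.2.2.1 ∧
    q.2.1 ≠ q.2.2.2)

def pairset (i j k l : Fin 6) : Finset (Finset (Fin 6)) := {univ \ {i, j}, univ \ {k, l}}

theorem card_Idx : (Idx.image (fun q => pairset q.1 q.2.1 q.2.2.1 q.2.2.2)).card = 45 := by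
  decide +kernel

theorem last_set : ∀ S : Finset (Fin 6), S.card = 4 → (S ∩ {0, 1, 2, 3}).card ≤ 2 →
    (S ∩ {0, 1, 4, 5}).card ≤ 2 → S = {2, 3, 4, 5} := by
  decide +kernel

/-- Full symmetry. -/
theorem full_sym {Ω : Type u} {T : Ω → Ω → Ω → Ω → Bool} (hk : Chi T false) (σ : Equiv.Perm (Fin 4)) :
    ∀ x : Fin 4 ↪ Ω, T (x (σ 0)) (x (σ 1)) (x (σ 2)) (x (σ 3)) = T (x 0) (x 1) (x 2) (x 3) := by
  have hmem : σ ∈ Submonoid.closure
      (Set.range fun i : Fin 3 ↦ Equiv.swap i.castSucc i.succ) := by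
    rw [Equiv.Perm.mclosure_swap_castSucc_succ]; trivial
  induction hmem using Submonoid.closure_induction with
  | mem σ hσ =>
    obtain ⟨i, rfl⟩ := hσ
    intro x
    have h := hk _ _ _ _ (nd4_of x)
    simp only [Bool.false_xor] at h
    fin_cases i
    · exact h.1
    · exact h.2.1
    · exact h.2.2
  | one => intro x; rfl
  | mul σ τ _ _ ih1 ih2 =>
    intro x
    have e1 := ih2 (σ.toEmbedding.trans x)
    have e2 := ih1 x
    exact e1.trans e2

/-- A block. -/
def Blk {Ω : Type u} (T : Ω → Ω → Ω → Ω → Bool) (a b c d : Ω) : Prop :=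
  Nd4 a b c d ∧ T a b c d = true

section blocks

variable {Ω : Type u} {G : Subgroup (Equiv.Perm Ω)} {T : Ω → Ω → Ω → Ω → Bool}

theorem Blk.s12 (hk : Chi T false) {a b c d : Ω} (h : Blk T a b c d) : Blk T b a c d := by
  refine ⟨h.1.s12, ?_⟩
  rw [(hk _ _ _ _ h.1).1, Bool.false_xor]
  exact h.2

theorem Blk.s23 (hk : Chi T false) {a b c d : Ω} (h : Blk T a b c d) : Blk T a c b d := by
  refine ⟨h.1.s23, ?_⟩
  rw [(hk _ _ _ _ h.1).2.1, Bool.false_xor]
  exact h.2

theorem Blk.s34 (hk : Chi T false) {a b c d : Ω} (h : Blk T a b c d) : Blk T a b d c := by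
  refine ⟨h.1.s34, ?_⟩
  rw [(hk _ _ _ _ h.1).2.2, Bool.false_xor]
  exact h.2

theorem wt_le_one : ∀ p : P5, wt p ≤ 1 → p.1 = true → p.2.1 = true → False := by
  decide +kernel

theorem Blk.uniq (hw : ∀ p ∈ CP T, wt p ≤ 1) {a b c d d' : Ω} (h : Blk T a b c d)
    (h' : Blk T a b c d') : d = d' := by
  by_contra hne
  have hd : Nd5 a b c d d' := ⟨h.1, h'.1.2.2.1, h'.1.2.2.2.2.1, h'.1.2.2.2.2.2, hne⟩
  exact wt_le_one _ (hw _ ⟨_, _, _, _, _, hd, rfl⟩) h.2 h'.2

theorem Blk.map (h : Rel4 G T) {g : Equiv.Perm Ω} (hg : g ∈ G) {a b c d : Ω}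
    (hb : Blk T a b c d) : Blk T (g a) (g b) (g c) (g d) :=
  ⟨hb.1.map g, by rw [h.inv g hg _ _ _ _ hb.1]; exact hb.2⟩

theorem exists_blk (h : Rel4 G T) (h3 : orbitCount G 3 = 1) (a b c : Ω)
    (hd : a ≠ b ∧ a ≠ c ∧ b ≠ c) : ∃ d, Blk T a b c d := by
  obtain ⟨a', b', c', d', hd', hT⟩ := h.ext
  obtain ⟨g, hg, ha, hb, hc⟩ := three_trans h3 a' b' c' a b c ⟨hd'.1, hd'.2.1, hd'.2.2.2.1⟩ hd
  refine ⟨g d', ?_⟩
  have := Blk.map h hg (⟨hd', hT⟩ : Blk T a' b' c' d')
  rwa [ha, hb, hc] at this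

/-- Block sets. -/
def BS (T : Ω → Ω → Ω → Ω → Bool) (A : Finset Ω) : Prop :=
  open Classical in ∃ a b c d, A = {a, b, c, d} ∧ Blk T a b c d

theorem card_four {a b c d : Ω} (h : Nd4 a b c d) :
    (open Classical in ({a, b, c, d} : Finset Ω)).card = 4 := by
  classical
  obtain ⟨h1, h2, h3, h4, h5, h6⟩ := h
  rw [Finset.card_insert_of_notMem, Finset.card_insert_of_notMem, Finset.card_insert_of_notMem,
    Finset.card_singleton]
  · simpa using h6
  · simp [h4, h5]
  · simp [h1, h2, h3]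

theorem univ_four : (Finset.univ : Finset (Fin 4)) = {0, 1, 2, 3} := by decide

theorem BS_iff (hk : Chi T false) {a b c d : Ω} (h : Nd4 a b c d) :
    BS T (open Classical in ({a, b, c, d} : Finset Ω)) ↔ Blk T a b c d := by
  classical
  constructor
  · rintro ⟨a', b', c', d', hset, hb⟩
    refine ⟨h, ?_⟩
    have hr : ∀ i, ∃ j, mk4 a b c d h j = mk4 a' b' c' d' hb.1 i := by
      intro i
      have h1 : mk4 a' b' c' d' hb.1 i ∈ ({a', b', c', d'} : Finset Ω) := by
        fin_cases i
        · show a' ∈ _; simp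
        · show b' ∈ _; simp
        · show c' ∈ _; simp
        · show d' ∈ _; simp
      have h2 : mk4 a' b' c' d' hb.1 i ∈ ({a, b, c, d} : Finset Ω) := by
        convert h1 using 1
      simp only [Finset.mem_insert, Finset.mem_singleton] at h2
      rcases h2 with h2 | h2 | h2 | h2
      · exact ⟨0, h2.symm⟩
      · exact ⟨1, h2.symm⟩
      · exact ⟨2, h2.symm⟩
      · exact ⟨3, h2.symm⟩
    choose s hs using hr
    have hinj : Function.Injective s := by
      intro i j hij
      apply (mk4 a' b' c' d' hb.1).injective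
      rw [← hs i, ← hs j, hij]
    let σ : Equiv.Perm (Fin 4) := Equiv.ofBijective s (Finite.injective_iff_bijective.1 hinj)
    have h3 := full_sym hk σ (mk4 a b c d h)
    have h4 : ∀ i, mk4 a b c d h (σ i) = mk4 a' b' c' d' hb.1 i := hs
    rw [h4, h4, h4, h4] at h3
    have h5 : T a' b' c' d' = T a b c d := h3
    rw [← h5]; exact hb.2
  · intro hb
    exact ⟨a, b, c, d, rfl, hb⟩

theorem Blk.uniq1 (hk : Chi T false) (hw : ∀ p ∈ CP T, wt p ≤ 1) {a b c d d' : Ω}
    (h : Blk T d a b c) (h' : Blk T d' a b c) : d = d' := by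
  have e : Blk T a b c d := ((h.s12 hk).s23 hk).s34 hk
  have e' : Blk T a b c d' := ((h'.s12 hk).s23 hk).s34 hk
  exact e.uniq hw e'

theorem BS.card {A : Finset Ω} (h : BS T A) : A.card = 4 := by
  obtain ⟨a, b, c, d, rfl, hb⟩ := h
  exact card_four hb.1

theorem BS.nd {a b c d : Ω} (h : BS T (open Classical in ({a, b, c, d} : Finset Ω))) :
    Nd4 a b c d := by
  classical
  have h1 := h.card
  refine ⟨?_, ?_, ?_, ?_, ?_, ?_⟩
  all_goals
    intro heq
    subst heq
    have h2 := h1.symm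
    revert h2
    apply ne_of_gt
    apply lt_of_le_of_lt (b := 3) ?_ (by norm_num)
    simp only [Finset.mem_insert, true_or, or_true, Finset.insert_eq_of_mem, Finset.mem_singleton]
    exact Finset.card_le_three

theorem BS.inter (hk : Chi T false) (hw : ∀ p ∈ CP T, wt p ≤ 1) {A B : Finset Ω}
    (hA : BS T A) (hB : BS T B) (h : 3 ≤ (open Classical in (A ∩ B)).card) : A = B := by
  classical
  obtain ⟨C, hC, hC3⟩ := Finset.exists_subset_card_eq h
  obtain ⟨a, b, c, hab, hac, hbc, rfl⟩ := Finset.card_eq_three.1 hC3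
  have hCA : {a, b, c} ⊆ A := fun z hz => by
    have := hC hz
    exact (Finset.mem_inter.1 this).1
  have hCB : {a, b, c} ⊆ B := fun z hz => by
    have := hC hz
    exact (Finset.mem_inter.1 this).2
  obtain ⟨d, hd, hdA⟩ := Finset.exists_eq_insert_iff.2 ⟨hCA, by rw [hA.card, hC3]⟩
  obtain ⟨d', hd', hdB⟩ := Finset.exists_eq_insert_iff.2 ⟨hCB, by rw [hB.card, hC3]⟩
  have key : ∀ (A : Finset Ω) (d : Ω), BS T A → insert d {a, b, c} = A → Blk T d a b c := by
    intro A d hA h
    subst h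
    have h2 : BS T (open Classical in ({d, a, b, c} : Finset Ω)) := by
      convert hA
    exact (BS_iff hk h2.nd).1 h2
  have h1 := key A d hA hdA
  have h2 := key B d' hB hdB
  have h3 := Blk.uniq1 hk hw h1 h2
  rw [← hdA, ← hdB, h3]

theorem BS.map (h : Rel4 G T) {g : Equiv.Perm Ω} (hg : g ∈ G) {A : Finset Ω} (hA : BS T A) :
    BS T (A.map g.toEmbedding) := by
  classical
  obtain ⟨a, b, c, d, rfl, hb⟩ := hA
  refine ⟨g a, g b, g c, g d, ?_, hb.map h hg⟩
  ext z
  simp

theorem BS.map_iff (h : Rel4 G T) {g : Equiv.Perm Ω} (hg : g ∈ G) (A : Finset Ω) :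
    BS T (A.map g.toEmbedding) ↔ BS T A := by
  constructor
  · intro h1
    have h2 := BS.map h (G.inv_mem hg) h1
    have h3 : (A.map g.toEmbedding).map (g⁻¹).toEmbedding = A := by
      rw [Finset.map_map]
      ext z
      rw [Finset.mem_map]
      constructor
      · rintro ⟨w, hw, rfl⟩
        have : g⁻¹ (g w) = w := g.symm_apply_apply w
        show g⁻¹ (g w) ∈ A
        rw [this]; exact hw
      · intro hz
        exact ⟨z, hz, g.symm_apply_apply z⟩
    rwa [h3] at h2
  · exact BS.map h hg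

/-- The blocks inside a six tuple. -/
noncomputable def inv6 (T : Ω → Ω → Ω → Ω → Bool) (x : Fin 6 ↪ Ω) : Finset (Finset (Fin 6)) :=
  open Classical in univ.filter (fun S => BS T (S.map x))

theorem mem_inv6 (x : Fin 6 ↪ Ω) (S : Finset (Fin 6)) : S ∈ inv6 T x ↔ BS T (S.map x) := by
  simp [inv6]

theorem inv6_inv (h : Rel4 G T) (x y : Fin 6 ↪ Ω) (hxy : ∃ g ∈ G, ∀ i, g (x i) = y i) :
    inv6 T x = inv6 T y := by
  obtain ⟨g, hg, hgx⟩ := hxy
  ext S
  rw [mem_inv6, mem_inv6, ← BS.map_iff h hg, Finset.map_map]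
  have : x.trans g.toEmbedding = y := by
    apply DFunLike.ext
    exact hgx
  rw [this]

theorem vinj {n : ℕ} (a : Ω) (v : Fin n → Ω) (ha : ∀ i, a ≠ v i) (hv : Function.Injective v) :
    Function.Injective (Matrix.vecCons a v) := by
  have : Matrix.vecCons a v = Fin.cons a v := rfl
  rw [this, Fin.cons_injective_iff]
  refine ⟨?_, hv⟩
  rintro ⟨i, hi⟩
  exact ha i hi.symm

/-- The Boolean law. -/
theorem boo (h : Rel4 G T) (hk : Chi T false) (hw : ∀ p ∈ CP T, wt p ≤ 1)
    (h6 : orbitCount G 6 ≤ 32) (h6' : orbitCount G 6 ≠ 0) {a b c d e f : Ω}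
    (h1 : Blk T a b c d) (h2 : Blk T a b e f) (hce : c ≠ e) (hde : d ≠ e) (hcf : c ≠ f)
    (hdf : d ≠ f) : Blk T c d e f := by
  classical
  by_contra hcon
  obtain ⟨⟨n1, n2, n3, n4, n5, n6⟩, _⟩ := id h1
  obtain ⟨⟨_, n7, n8, n9, n10, n11⟩, _⟩ := id h2
  have hx : Function.Injective ![a, b, c, d, e, f] := by
    apply vinj
    · intro i; fin_cases i
      · exact n1
      · exact n2
      · exact n3
      · exact n7
      · exact n8
    apply vinj
    · intro i; fin_cases i
      · exact n4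
      · exact n5
      · exact n9
      · exact n10
    apply vinj
    · intro i; fin_cases i
      · exact n6
      · exact hce
      · exact hcf
    apply vinj
    · intro i; fin_cases i
      · exact hde
      · exact hdf
    apply vinj
    · intro i; fin_cases i
      exact n11
    exact Function.injective_of_subsingleton _
  let x : Fin 6 ↪ Ω := ⟨![a, b, c, d, e, f], hx⟩
  have e1 : ({0, 1, 2, 3} : Finset (Fin 6)).map x = {a, b, c, d} := by
    ext z; simp [x]
  have e2 : ({0, 1, 4, 5} : Finset (Fin 6)).map x = {a, b, e, f} := by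
    ext z; simp [x]
  have e3 : ({2, 3, 4, 5} : Finset (Fin 6)).map x = {c, d, e, f} := by
    ext z; simp [x]
  have b1 : BS T (({0, 1, 2, 3} : Finset (Fin 6)).map x) := ⟨a, b, c, d, by rw [e1], h1⟩
  have b2 : BS T (({0, 1, 4, 5} : Finset (Fin 6)).map x) := ⟨a, b, e, f, by rw [e2], h2⟩
  have hinv : ∀ S : Finset (Fin 6), BS T (S.map x) ↔ S = {0, 1, 2, 3} ∨ S = {0, 1, 4, 5} := by
    intro S
    constructor
    · intro hS
      have hc : S.card = 4 := by
        have := hS.card
        rwa [Finset.card_map] at this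
      by_contra hne
      rw [not_or] at hne
      have g1 : (S ∩ {0, 1, 2, 3}).card ≤ 2 := by
        by_contra hgt
        apply hne.1
        apply Finset.map_injective x
        apply BS.inter hk hw hS b1
        have h3 : S.map x ∩ ({0, 1, 2, 3} : Finset (Fin 6)).map x = (S ∩ {0, 1, 2, 3}).map x :=
          (Finset.map_inter _ _).symm
        have h4 : ((S ∩ {0, 1, 2, 3}).map x).card = (S ∩ {0, 1, 2, 3}).card := Finset.card_map _
        have h5 : 3 ≤ (S ∩ {0, 1, 2, 3}).card := by omega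
        rw [← h4, ← h3] at h5
        convert h5
      have g2 : (S ∩ {0, 1, 4, 5}).card ≤ 2 := by
        by_contra hgt
        apply hne.2
        apply Finset.map_injective x
        apply BS.inter hk hw hS b2
        have h3 : S.map x ∩ ({0, 1, 4, 5} : Finset (Fin 6)).map x = (S ∩ {0, 1, 4, 5}).map x :=
          (Finset.map_inter _ _).symm
        have h4 : ((S ∩ {0, 1, 4, 5}).map x).card = (S ∩ {0, 1, 4, 5}).card := Finset.card_map _
        have h5 : 3 ≤ (S ∩ {0, 1, 4, 5}).card := by omega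
        rw [← h4, ← h3] at h5
        convert h5
      have g3 := last_set S hc g1 g2
      subst g3
      rw [e3] at hS
      apply hcon
      have hS' : BS T (open Classical in ({c, d, e, f} : Finset Ω)) := by convert hS
      exact (BS_iff hk hS'.nd).1 hS'
    · rintro (rfl | rfl)
      · exact b1
      · exact b2
  have hsub : ((Idx.image (fun q => pairset q.1 q.2.1 q.2.2.1 q.2.2.2)) :
      Set (Finset (Finset (Fin 6)))) ⊆ Set.range (inv6 T) := by
    intro P hP
    rw [Finset.mem_coe, Finset.mem_image] at hP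
    obtain ⟨⟨i, j, k, l⟩, hq, rfl⟩ := hP
    rw [Idx, Finset.mem_filter] at hq
    obtain ⟨_, q1, q2, q3, q4, q5⟩ := hq
    simp only at q1 q2 q3 q4 q5
    have hu : Function.Injective ![i, j, k, l] := by
      have m1 : i ≠ j := q1.ne
      have m2 : k ≠ l := q2.ne
      have m3 : i ≠ k := q3.ne
      have m4 : i ≠ l := (q3.trans q2).ne
      apply vinj
      · intro s; fin_cases s
        · exact m1
        · exact m3
        · exact m4
      apply vinj
      · intro s; fin_cases s
        · exact q4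
        · exact q5
      apply vinj
      · intro s; fin_cases s
        exact m2
      exact Function.injective_of_subsingleton _
    have hv : Function.Injective ![(4 : Fin 6), 5, 2, 3] := by decide
    obtain ⟨σ, hσ⟩ := Equiv.Perm.exists_extending_pair ![i, j, k, l] ![(4 : Fin 6), 5, 2, 3] hu hv
    have s1 : σ i = 4 := hσ 0
    have s2 : σ j = 5 := hσ 1
    have s3 : σ k = 2 := hσ 2
    have s4 : σ l = 3 := hσ 3
    refine ⟨σ.toEmbedding.trans x, ?_⟩
    ext S
    rw [mem_inv6, ← Finset.map_map, hinv, pairset, Finset.mem_insert, Finset.mem_singleton]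
    have t1 : (univ \ {i, j} : Finset (Fin 6)).map σ.toEmbedding = {0, 1, 2, 3} := by
      rw [Finset.map_sdiff, Finset.map_univ_equiv, Finset.map_insert, Finset.map_singleton]
      show univ \ {σ i, σ j} = _
      rw [s1, s2]
      decide
    have t2 : (univ \ {k, l} : Finset (Fin 6)).map σ.toEmbedding = {0, 1, 4, 5} := by
      rw [Finset.map_sdiff, Finset.map_univ_equiv, Finset.map_insert, Finset.map_singleton]
      show univ \ {σ k, σ l} = _
      rw [s3, s4]
      decide
    rw [← t1, ← t2, Finset.map_inj, Finset.map_inj]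
  have hle := ncard_le (G := G) (inv6 T) (inv6_inv h) h6'
  have hle2 := Set.ncard_le_ncard hsub (Set.toFinite _)
  rw [Set.ncard_coe_finset, card_Idx] at hle2
  omega

end blocks

end Pool.Agent.Helper798.FSeq
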