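import Mathlib
import Pool.Agent.Helper798.FSeq.Codes

set_option autoImplicit false
set_option maxRecDepth 100000

namespace Pool.Agent.Helper798.FSeq

open Finset

universe u v

/-- Even subsets of a six element set, of size different from two. -/
def E6 : Finset (Finset (Fin 6)) := univ.filter (fun S => S.card = 0 ∨ S.card = 4 ∨ S.card = 6)

/-- All candidates for codes of length six. -/
def L6 : Finset (Finset (Finset (Fin 6))) :=
  ((E6 ×ˢ E6).filter (fun p => symmDiff p.1 p.2 ∈ E6)).image
    (fun p => {∅, p.1, p.2, symmDiff p.1 p.2})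

theorem card_L6 : L6.card = 32 := by decide +kernel

/-- All candidates for codes of length five. -/
def L5 : Finset (Finset (Finset (Fin 5))) :=
  (univ.filter (fun S => S.card = 0 ∨ S.card = 4)).image (fun S => {∅, S})

theorem card_L5 : L5.card = 6 := by decide +kernel

theorem E6_dim : ∀ S ∈ E6, ∀ T ∈ E6, symmDiff S T ∈ E6 → S ≠ ∅ → T ≠ ∅ → S ≠ T →
    ∀ U ∈ E6, symmDiff S U ∈ E6 → symmDiff T U ∈ E6 → symmDiff (symmDiff S T) U ∈ E6 →
    U = ∅ ∨ U = S ∨ U = T ∨ U = symmDiff S T := by decide +kernel

theorem card_odd8 : (univ.filter (fun S : Finset (Fin 8) => ¬ Even S.card ∧ S.card ≠ 1)).card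
    = 120 := by decide +kernel

section small

variable {X : Type u} [AddCommGroup X]

theorem code_small (hX : ∀ x : X, x + x = 0) {n : ℕ} (hn : n ≤ 3) (x : Fin n ↪ X) :
    code x = {∅} := by
  ext S
  rw [Finset.mem_singleton]
  constructor
  · intro hS
    have h1 := card_ne_two hX x.injective hS
    have h2 := ((mem_code _ _).1 hS).1
    have h3 : S.card ≤ n := by
      have := Finset.card_le_univ S
      rwa [Fintype.card_fin] at this
    obtain ⟨a, ha⟩ := h2
    rw [← Finset.card_eq_zero]
    omega
  · rintro rfl
    exact empty_mem_code _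

theorem CS_small (hX : ∀ x : X, x + x = 0) [Infinite X] {n : ℕ} (hn : n ≤ 3) :
    (CS X n).ncard = 1 := by
  have h1 : CS X n = {{∅}} := by
    apply Set.Subset.antisymm
    · rintro c ⟨x, rfl⟩
      exact code_small hX hn x
    · rintro c hc
      rw [Set.mem_singleton_iff] at hc
      subst hc
      obtain ⟨c, x, hx⟩ := CS_nonempty (X := X) n
      exact ⟨x, code_small hX hn x⟩
  rw [h1, Set.ncard_singleton]

theorem code_four (hX : ∀ x : X, x + x = 0) (x : Fin 4 ↪ X) :
    code x = (open Classical in if x 0 + x 1 + x 2 + x 3 = 0 then {∅, univ} else {∅}) := by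
  have h0 : ∑ i, x i = x 0 + x 1 + x 2 + x 3 := by
    rw [Fin.sum_univ_four]
  ext S
  have h2 : S ∈ code x → S = ∅ ∨ S = univ := by
    intro hS
    have h1 := card_ne_two hX x.injective hS
    have h2 := ((mem_code _ _).1 hS).1
    have h3 : S.card ≤ 4 := by
      have := Finset.card_le_univ S
      rwa [Fintype.card_fin] at this
    obtain ⟨a, ha⟩ := h2
    by_cases h4 : S.card = 4
    · right
      rw [← Finset.card_eq_iff_eq_univ, Fintype.card_fin]
      exact h4
    · left
      rw [← Finset.card_eq_zero]
      omega
  by_cases h : x 0 + x 1 + x 2 + x 3 = 0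
  · rw [if_pos h, Finset.mem_insert, Finset.mem_singleton]
    refine ⟨h2, ?_⟩
    rintro (rfl | rfl)
    · exact empty_mem_code _
    · rw [mem_code, h0]
      exact ⟨by decide, h⟩
  · rw [if_neg h, Finset.mem_singleton]
    constructor
    · intro hS
      rcases h2 hS with h3 | h3
      · exact h3
      · rw [h3, mem_code, h0] at hS
        exact absurd hS.2 h
    · rintro rfl
      exact empty_mem_code _

theorem code_five (hX : ∀ x : X, x + x = 0) (x : Fin 5 ↪ X) : code x ∈ L5 := by
  have hsz : ∀ S ∈ code x, S.card = 0 ∨ S.card = 4 := by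
    intro S hS
    have h1 := card_ne_two hX x.injective hS
    have h2 := ((mem_code _ _).1 hS).1
    have h3 : S.card ≤ 5 := by
      have := Finset.card_le_univ S
      rwa [Fintype.card_fin] at this
    obtain ⟨a, ha⟩ := h2
    omega
  rw [L5, Finset.mem_image]
  by_cases h : ∃ S ∈ code x, S ≠ ∅
  · obtain ⟨S, hS, hne⟩ := h
    have hS4 : S.card = 4 := by
      rcases hsz S hS with h | h
      · exact absurd (Finset.card_eq_zero.1 h) hne
      · exact h
    refine ⟨S, ?_, ?_⟩
    · rw [Finset.mem_filter]
      exact ⟨Finset.mem_univ _, hsz S hS⟩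
    · ext T
      rw [Finset.mem_insert, Finset.mem_singleton]
      constructor
      · rintro (rfl | rfl)
        · exact empty_mem_code _
        · exact hS
      · intro hT
        by_cases hT0 : T = ∅
        · exact Or.inl hT0
        · right
          have hT4 : T.card = 4 := by
            rcases hsz T hT with h | h
            · exact absurd (Finset.card_eq_zero.1 h) hT0
            · exact h
          have h1 := hsz _ (symmDiff_mem_code hX _ hS hT)
          have h2 := card_symmDiff_add S T
          have h3 : (S ∪ T).card ≤ 5 := by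
            have := Finset.card_le_univ (S ∪ T)
            rwa [Fintype.card_fin] at this
          have h4 := Finset.card_union_add_card_inter S T
          have h5 : (symmDiff S T).card = 0 := by omega
          rw [Finset.card_eq_zero, ← Finset.bot_eq_empty, symmDiff_eq_bot] at h5
          exact h5.symm
  · push Not at h
    refine ⟨∅, ?_, ?_⟩
    · rw [Finset.mem_filter]
      exact ⟨Finset.mem_univ _, Or.inl Finset.card_empty⟩
    · ext T
      rw [Finset.mem_insert, Finset.mem_singleton]
      constructor
      · rintro (rfl | rfl)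
        · exact empty_mem_code _
        · exact empty_mem_code _
      · intro hT
        exact Or.inl (h T hT)

theorem code_six (hX : ∀ x : X, x + x = 0) (x : Fin 6 ↪ X) : code x ∈ L6 := by
  have hsz : ∀ S ∈ code x, S ∈ E6 := by
    intro S hS
    have h1 := card_ne_two hX x.injective hS
    have h2 := ((mem_code _ _).1 hS).1
    have h3 : S.card ≤ 6 := by
      have := Finset.card_le_univ S
      rwa [Fintype.card_fin] at this
    obtain ⟨a, ha⟩ := h2
    rw [E6, Finset.mem_filter]
    refine ⟨Finset.mem_univ _, ?_⟩
    omega
  have hcl : ∀ S ∈ code x, ∀ T ∈ code x, symmDiff S T ∈ code x :=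
    fun S hS T hT => symmDiff_mem_code hX _ hS hT
  have h0 := empty_mem_code (x : Fin 6 → X)
  rw [L6, Finset.mem_image]
  by_cases h : ∃ S ∈ code x, S ≠ ∅
  · obtain ⟨S, hS, hne⟩ := h
    by_cases h' : ∃ T ∈ code x, T ≠ ∅ ∧ S ≠ T
    · obtain ⟨T, hT, hTne, hST⟩ := h'
      refine ⟨(S, T), ?_, ?_⟩
      · rw [Finset.mem_filter, Finset.mem_product]
        exact ⟨⟨hsz S hS, hsz T hT⟩, hsz _ (hcl S hS T hT)⟩
      · ext U
        simp only [Finset.mem_insert, Finset.mem_singleton]
        constructor
        · rintro (rfl | rfl | rfl | rfl)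
          · exact h0
          · exact hS
          · exact hT
          · exact hcl S hS T hT
        · intro hU
          exact E6_dim S (hsz S hS) T (hsz T hT) (hsz _ (hcl S hS T hT)) hne hTne hST U
            (hsz U hU) (hsz _ (hcl S hS U hU)) (hsz _ (hcl T hT U hU))
            (hsz _ (hcl _ (hcl S hS T hT) U hU))
    · push Not at h'
      refine ⟨(S, S), ?_, ?_⟩
      · rw [Finset.mem_filter, Finset.mem_product]
        exact ⟨⟨hsz S hS, hsz S hS⟩, hsz _ (hcl S hS S hS)⟩
      · ext U
        simp only [Finset.mem_insert, Finset.mem_singleton]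
        constructor
        · rintro (rfl | rfl | rfl | rfl)
          · exact h0
          · exact hS
          · exact hS
          · exact hcl _ hS _ hS
        · intro hU
          by_cases hU0 : U = ∅
          · exact Or.inl hU0
          · exact Or.inr (Or.inl (h' U hU (Finset.nonempty_iff_ne_empty.2 hU0)).symm)
  · push Not at h
    refine ⟨(∅, ∅), ?_, ?_⟩
    · rw [Finset.mem_filter, Finset.mem_product]
      exact ⟨⟨hsz _ h0, hsz _ h0⟩, hsz _ (hcl _ h0 _ h0)⟩
    · ext U
      simp only [Finset.mem_insert, Finset.mem_singleton]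
      constructor
      · rintro (rfl | rfl | rfl | rfl)
        · exact h0
        · exact h0
        · exact h0
        · exact hcl _ h0 _ h0
      · intro hU
        exact Or.inl (h U hU)

theorem CS_five (hX : ∀ x : X, x + x = 0) : (CS X 5).ncard ≤ 6 := by
  have h1 : CS X 5 ⊆ (L5 : Set _) := by
    rintro c ⟨x, rfl⟩
    exact code_five hX x
  have h2 := Set.ncard_le_ncard h1 (Finset.finite_toSet _)
  rwa [Set.ncard_coe_finset, card_L5] at h2

theorem CS_six (hX : ∀ x : X, x + x = 0) : (CS X 6).ncard ≤ 32 := by
  have h1 : CS X 6 ⊆ (L6 : Set _) := by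
    rintro c ⟨x, rfl⟩
    exact code_six hX x
  have h2 := Set.ncard_le_ncard h1 (Finset.finite_toSet _)
  rwa [Set.ncard_coe_finset, card_L6] at h2

/-- Restriction and the last parity set. -/
theorem CS_succ (hX : ∀ x : X, x + x = 0) (n : ℕ) :
    (CS X (n + 1)).ncard ≤ (CS X n).ncard * (2 ^ n + 1) := by
  classical
  let res : Finset (Finset (Fin (n + 1))) → Finset (Finset (Fin n)) :=
    fun c => univ.filter (fun S => ext S false ∈ c)
  let lst : Finset (Finset (Fin (n + 1))) → Option (Finset (Fin n)) :=
    fun c => if h : ∃ T, ext T true ∈ c then some h.choose else none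
  have h1 : (CS X (n + 1)).ncard ≤
      ((CS X n) ×ˢ (Set.univ : Set (Option (Finset (Fin n))))).ncard := by
    apply Set.ncard_le_ncard_of_injOn (fun c => (res c, lst c))
    · rintro c ⟨x, rfl⟩
      refine ⟨⟨⟨fun i => x i.castSucc, fun i j hij => by
        have := x.injective hij
        exact Fin.castSucc_injective n this⟩, ?_⟩, trivial⟩
      ext S
      simp only [res, Finset.mem_filter, Finset.mem_univ, true_and]
      rw [mem_code, mem_code]
      have e1 : (ext S false).card = S.card := by simp [ext]
      have e2 : ∑ i ∈ ext S false, x i = ∑ i ∈ S, x i.castSucc := by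
        simp [ext]
      rw [e1, e2]
      rfl
    · rintro c ⟨x, rfl⟩ d ⟨y, rfl⟩ hcd
      simp only [Prod.mk.injEq] at hcd
      obtain ⟨hr, hl⟩ := hcd
      have hf : ∀ S : Finset (Fin (n + 1)), Fin.last n ∉ S → (S ∈ code x ↔ S ∈ code y) := by
        intro S hS
        have e1 : ext (pb S) false = S := by
          have := ext_pb S
          simp only [hS, decide_false] at this
          exact this
        have e2 : pb S ∈ res (code x) ↔ pb S ∈ res (code y) := by rw [hr]
        simp only [res, Finset.mem_filter, Finset.mem_univ, true_and, e1] at e2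
        exact e2
      show code x = code y
      ext S
      by_cases hS : Fin.last n ∈ S
      · have e1 : ext (pb S) true = S := by
          have := ext_pb S
          simp only [hS, decide_true] at this
          exact this
        have key : ∀ T : Finset (Fin n), ext T true ∈ code x → ext T true ∈ code y →
            (S ∈ code x ↔ S ∈ code y) := by
          intro T hTx hTy
          have e3 : Fin.last n ∉ symmDiff S (ext T true) := by
            rw [Finset.mem_symmDiff, last_mem_ext]
            tauto
          have e4 : symmDiff (symmDiff S (ext T true)) (ext T true) = S := by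
            rw [symmDiff_symmDiff_cancel_right]
          constructor
          · intro h
            have h2 := (hf _ e3).1 (symmDiff_mem_code hX _ h hTx)
            rw [← e4]
            exact symmDiff_mem_code hX _ h2 hTy
          · intro h
            have h2 := (hf _ e3).2 (symmDiff_mem_code hX _ h hTy)
            rw [← e4]
            exact symmDiff_mem_code hX _ h2 hTx
        by_cases hex : ∃ T, ext T true ∈ code x
        · have hl1 : lst (code x) = some hex.choose := by simp only [lst, dif_pos hex]
          by_cases hey : ∃ T, ext T true ∈ code y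
          · have hl2 : lst (code y) = some hey.choose := by simp only [lst, dif_pos hey]
            rw [hl1, hl2, Option.some_inj] at hl
            apply key hex.choose hex.choose_spec
            rw [hl]
            exact hey.choose_spec
          · have hl2 : lst (code y) = none := by simp only [lst, dif_neg hey]
            rw [hl1, hl2] at hl
            exact absurd hl (by simp)
        · have hl1 : lst (code x) = none := by simp only [lst, dif_neg hex]
          by_cases hey : ∃ T, ext T true ∈ code y
          · have hl2 : lst (code y) = some hey.choose := by simp only [lst, dif_pos hey]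
            rw [hl1, hl2] at hl
            exact absurd hl (by simp)
          · constructor
            · intro h; exact absurd ⟨pb S, by rw [e1]; exact h⟩ hex
            · intro h; exact absurd ⟨pb S, by rw [e1]; exact h⟩ hey
      · exact hf S hS
  refine h1.trans ?_
  rw [Set.ncard_prod, Set.ncard_univ, Nat.card_eq_fintype_card, Fintype.card_option,
    Fintype.card_finset, Fintype.card_fin]

theorem CS_four (hX : ∀ x : X, x + x = 0) [Infinite X] : (CS X 4).ncard = 2 := by
  have hY : ∀ y : Fin 3 → ZMod 2, y + y = 0 := by decide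
  let x1 : Fin 4 ↪ (Fin 3 → ZMod 2) := ⟨![![0, 0, 0], ![1, 0, 0], ![0, 1, 0], ![1, 1, 0]],
    by decide⟩
  let x2 : Fin 4 ↪ (Fin 3 → ZMod 2) := ⟨![![0, 0, 0], ![1, 0, 0], ![0, 1, 0], ![0, 0, 1]],
    by decide⟩
  have h1 : code x1 = {∅, univ} := by
    rw [code_four hY, if_pos (by decide)]
  have h2 : code x2 = {∅} := by
    rw [code_four hY, if_neg (by decide)]
  have hsub := CS_sub hY hX 4
  have h3 : CS X 4 = {{∅, univ}, {∅}} := by
    apply Set.Subset.antisymm
    · rintro c ⟨x, rfl⟩
      show code x ∈ _
      rw [code_four hX]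
      split_ifs
      · exact Or.inl rfl
      · exact Or.inr rfl
    · rintro c (rfl | rfl)
      · exact hsub ⟨x1, h1⟩
      · exact hsub ⟨x2, h2⟩
  rw [h3, Set.ncard_pair]
  decide

end small

section big

abbrev V8 : Type := Fin 8 → ZMod 2

def vv (S : Finset (Fin 8)) : V8 := ∑ i ∈ S, Pi.single i 1

theorem vv_apply (S : Finset (Fin 8)) (k : Fin 8) : vv S k = if k ∈ S then 1 else 0 := by
  rw [vv, Finset.sum_apply]
  simp only [Pi.single_apply]
  rw [Finset.sum_ite_eq]

theorem vv_inj : Function.Injective vv := by
  intro S T h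
  ext k
  have h1 := congrFun h k
  rw [vv_apply, vv_apply] at h1
  by_cases hS : k ∈ S
  · by_cases hT : k ∈ T
    · exact ⟨fun _ => hT, fun _ => hS⟩
    · rw [if_pos hS, if_neg hT] at h1
      exact absurd h1 (by decide)
  · by_cases hT : k ∈ T
    · rw [if_neg hS, if_pos hT] at h1
      exact absurd h1 (by decide)
    · exact ⟨fun h => absurd h hS, fun h => absurd h hT⟩

theorem V8_add (y : V8) : y + y = 0 := by
  funext i
  exact CharTwo.add_self_eq_zero (y i)

def odd8 : Finset (Finset (Fin 8)) := univ.filter (fun S => ¬ Even S.card ∧ S.card ≠ 1)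

def tup (s : Fin 4 ↪ odd8) : Fin (8 + 4) ↪ V8 where
  toFun := Fin.append (fun i => vv {i}) (fun j => vv (s j).1)
  inj' := by
    have hs : ∀ j, (s j).1.card ≠ 1 := by
      intro j
      exact (Finset.mem_filter.1 (s j).2).2.2
    rw [Fin.append_injective_iff]
    refine ⟨?_, ?_, ?_⟩
    · intro i j hij
      have := vv_inj hij
      exact Finset.singleton_injective this
    · intro i j hij
      have := vv_inj hij
      exact s.injective (Subtype.ext this)
    · intro i j hij
      have := vv_inj hij
      apply hs j
      rw [← this, Finset.card_singleton]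

def ss (S : Finset (Fin 8)) (j : Fin 4) : Finset (Fin (8 + 4)) :=
  insert (Fin.natAdd 8 j) (S.map (Fin.castAddEmb 4))

theorem ss_notMem (S : Finset (Fin 8)) (j : Fin 4) :
    Fin.natAdd 8 j ∉ S.map (Fin.castAddEmb 4) := by
  intro h
  rw [Finset.mem_map] at h
  obtain ⟨i, _, hi⟩ := h
  have h1 : i.val = 8 + j.val := congrArg Fin.val hi
  have := i.2
  omega

theorem ss_mem (s : Fin 4 ↪ odd8) (S : Finset (Fin 8)) (hS : ¬ Even S.card) (j : Fin 4) :
    ss S j ∈ code (tup s) ↔ (s j).1 = S := by
  rw [mem_code, ss, Finset.card_insert_of_notMem (ss_notMem S j), Finset.card_map,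
    Finset.sum_insert (ss_notMem S j), Finset.sum_map]
  have h1 : tup s (Fin.natAdd 8 j) = vv (s j).1 := by
    show Fin.append (fun i => vv {i}) (fun j => vv (s j).1) (Fin.natAdd 8 j) = _
    rw [Fin.append_right]
  have h2 : ∀ i, tup s (Fin.castAddEmb 4 i) = Pi.single i 1 := by
    intro i
    show Fin.append (fun i => vv {i}) (fun j => vv (s j).1) (Fin.castAdd 4 i) = _
    rw [Fin.append_left, vv, Finset.sum_singleton]
  rw [h1, Finset.sum_congr rfl (fun i _ => h2 i)]
  change Even (S.card + 1) ∧ vv (s j).1 + vv S = 0 ↔ _
  rw [add_eq_zero_iff' V8_add]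
  constructor
  · intro h; exact vv_inj h.2
  · intro h; exact ⟨Nat.even_add_one.2 hS, by rw [h]⟩

theorem CS_twelve (X : Type u) [AddCommGroup X] (hX : ∀ x : X, x + x = 0) [Infinite X] :
    197149680 ≤ (CS X 12).ncard := by
  have h1 : (Set.range (fun s : Fin 4 ↪ odd8 => code (tup s))) ⊆ CS X 12 := by
    refine Set.Subset.trans ?_ (CS_sub V8_add hX 12)
    rintro c ⟨s, rfl⟩
    exact ⟨tup s, rfl⟩
  have h2 : Function.Injective (fun s : Fin 4 ↪ odd8 => code (tup s)) := by
    intro s t hst
    apply DFunLike.ext
    intro j
    apply Subtype.ext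
    have h3 : ¬ Even (s j).1.card := (Finset.mem_filter.1 (s j).2).2.1
    have h4 := (ss_mem s _ h3 j).2 rfl
    have h5 : ss (s j).1 j ∈ code (tup t) := by
      have hst' : code (tup s) = code (tup t) := hst
      rw [← hst']; exact h4
    exact ((ss_mem t _ h3 j).1 h5).symm
  have h3 := Set.ncard_le_ncard h1 (Set.toFinite _)
  rw [← Set.image_univ, Set.ncard_image_of_injective _ h2, Set.ncard_univ,
    Nat.card_eq_fintype_card, Fintype.card_embedding_eq, Fintype.card_fin, Fintype.card_coe] at h3
  have h4 : odd8.card = 120 := card_odd8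
  rw [h4] at h3
  have h5 : Nat.descFactorial 120 4 = 197149680 := by decide +kernel
  rwa [h5] at h3

end big

end Pool.Agent.Helper798.FSeq
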