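import Mathlib
import Pool.Agent.Helper798.FSeq.Defs
import Pool.Agent.Helper798.FSeq.Counts

set_option autoImplicit false

namespace Pool.Agent.Helper798.FSeq

open Finset

universe u

/-- Append a new point. -/
def sn {Ω : Type u} {n : ℕ} (x : Fin n ↪ Ω) (a : Ω) (h : ∀ i, x i ≠ a) : Fin (n + 1) ↪ Ω :=
  ⟨Fin.snoc x a, by
    rw [Fin.snoc_injective_iff]
    refine ⟨x.injective, ?_⟩
    rintro ⟨i, hi⟩
    exact h i hi⟩

theorem sn_castSucc {Ω : Type u} {n : ℕ} (x : Fin n ↪ Ω) (a : Ω) (h : ∀ i, x i ≠ a) (i : Fin n) :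
    sn x a h i.castSucc = x i := by
  show (Fin.snoc x a : Fin (n + 1) → Ω) i.castSucc = x i
  rw [Fin.snoc_castSucc]

theorem sn_last {Ω : Type u} {n : ℕ} (x : Fin n ↪ Ω) (a : Ω) (h : ∀ i, x i ≠ a) :
    sn x a h (Fin.last n) = a := by
  show (Fin.snoc x a : Fin (n + 1) → Ω) (Fin.last n) = a
  rw [Fin.snoc_last]

section fin

variable {Ω : Type u} [AddCommGroup Ω] {G : Subgroup (Equiv.Perm Ω)}

theorem code_inv (hX : ∀ x : Ω, x + x = 0)
    (haff : ∀ g ∈ G, ∀ x y z : Ω, g (x + y + z) = g x + g y + g z) {n : ℕ} (x y : Fin n ↪ Ω)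
    (h : ∃ g ∈ G, ∀ i, g (x i) = y i) : code x = code y := by
  obtain ⟨g, hg, hgx⟩ := h
  have h1 : (y : Fin n → Ω) = fun i => g (x i) := by
    funext i; exact (hgx i).symm
  rw [h1, code_aff hX (haff g hg) g.injective]

theorem code_comp {m n : ℕ} (x : Fin n → Ω) (e : Fin m ↪ Fin n) (S : Finset (Fin m)) :
    S ∈ code (fun i => x (e i)) ↔ S.map e ∈ code x := by
  rw [mem_code, mem_code, Finset.card_map, Finset.sum_map]

/-- Dependent tuples of length `n + 1` with the same code are in the same orbit. -/
theorem dep_orbit (hX : ∀ x : Ω, x + x = 0)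
    (haff : ∀ g ∈ G, ∀ x y z : Ω, g (x + y + z) = g x + g y + g z) {n : ℕ}
    (hn : ∀ x y : Fin n ↪ Ω, code x = code y → ∃ g ∈ G, ∀ i, g (x i) = y i)
    (x y : Fin (n + 1) ↪ Ω) (hxy : code x = code y) (hne : code x ≠ {∅}) :
    ∃ g ∈ G, ∀ i, g (x i) = y i := by
  classical
  obtain ⟨S, hS, hSne⟩ : ∃ S ∈ code x, S ≠ ∅ := by
    by_contra hcon
    push Not at hcon
    apply hne
    ext S
    rw [Finset.mem_singleton]
    constructor
    · exact hcon S
    · rintro rfl; exact empty_mem_code _
  obtain ⟨i, hi⟩ := Finset.nonempty_iff_ne_empty.2 hSne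
  have hS' : S ∈ code y := hxy ▸ hS
  let e : Fin n ↪ Fin (n + 1) := i.succAboveEmb
  obtain ⟨g, hg, hgx⟩ := hn (e.trans x) (e.trans y) (by
    ext T
    have h1 := code_comp (x : Fin (n + 1) → Ω) e T
    have h2 := code_comp (y : Fin (n + 1) → Ω) e T
    rw [hxy] at h1
    exact h1.trans h2.symm)
  have hgj : ∀ j, j ≠ i → g (x j) = y j := by
    intro j hj
    obtain ⟨k, hk⟩ := Fin.exists_succAbove_eq hj
    have := hgx k
    have e1 : (e.trans x) k = x j := by rw [← hk]; rfl
    have e2 : (e.trans y) k = y j := by rw [← hk]; rfl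
    rw [e1, e2] at this
    exact this
  have hsum : ∀ z : Fin (n + 1) ↪ Ω, S ∈ code z → z i = ∑ j ∈ S.erase i, z j := by
    intro z hz
    have h1 := ((mem_code _ _).1 hz).2
    rw [← Finset.add_sum_erase S z hi, add_eq_zero_iff' hX] at h1
    exact h1
  refine ⟨g, hg, ?_⟩
  intro j
  by_cases hj : j = i
  · subst hj
    have hodd : ¬ Even (S.erase j).card := by
      have h1 := Finset.card_erase_add_one hi
      have h2 := ((mem_code _ _).1 hS).1
      rw [← h1] at h2
      intro h3
      exact (Nat.even_add_one.1 h2) h3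
    have h1 := aff_sum hX (haff g hg) (S.erase j) x
    rw [if_neg hodd, add_zero, ← hsum x hS] at h1
    rw [← h1, hsum y hS']
    apply Finset.sum_congr rfl
    intro k hk
    rw [Finset.mem_erase] at hk
    exact hgj k hk.1
  · exact hgj j hj

theorem final_contra [Infinite Ω] (hX : ∀ x : Ω, x + x = 0)
    (haff : ∀ g ∈ G, ∀ x y z : Ω, g (x + y + z) = g x + g y + g z)
    (h11 : orbitCount G 11 = (CS Ω 11).ncard) (h12 : orbitCount G 12 = (CS Ω 12).ncard * 2)
    (h13 : orbitCount G 13 ≤ (CS Ω 13).ncard * 8192) (h13' : orbitCount G 13 ≠ 0) : False := by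
  classical
  have hN := CS_twelve Ω hX
  have hpos11 : (CS Ω 11).ncard ≠ 0 :=
    (Set.ncard_pos (Set.toFinite _)).2 (CS_nonempty (X := Ω) 11) |>.ne'
  have sep11 : ∀ x y : Fin 11 ↪ Ω, code x = code y → ∃ g ∈ G, ∀ i, g (x i) = y i := by
    intro x y hxy
    exact separates (G := G) (fun x : Fin 11 ↪ Ω => code x) (code_inv hX haff)
      (by rw [h11]; exact hpos11) (by rw [h11]; exact le_rfl) x y hxy
  have dep12 := dep_orbit (G := G) hX haff sep11
  have fin12 : Finite (Quotient (tupleSetoid G 12)) := finite_of_ne_zero (by omega)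
  have fin13 : Finite (Quotient (tupleSetoid G 13)) := finite_of_ne_zero h13'
  let c : Quotient (tupleSetoid G 12) → Finset (Finset (Fin 12)) :=
    Quotient.lift (fun x : Fin 12 ↪ Ω => code x) (code_inv hX haff)
  -- classes of independent tuples
  let I : Type u := {q : Quotient (tupleSetoid G 12) // c q = {∅}}
  have : Finite I := Subtype.finite
  letI : Fintype I := Fintype.ofFinite I
  have ht : (CS Ω 12).ncard ≤ Fintype.card I := by
    have h1 : ({q | c q ≠ {∅}} : Set (Quotient (tupleSetoid G 12))).ncard ≤ (CS Ω 12).ncard := by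
      apply Set.ncard_le_ncard_of_injOn c
      · intro q _
        induction q using Quotient.inductionOn with
        | h x => exact ⟨x, rfl⟩
      · intro q hq r hr hqr
        revert hq hr hqr
        induction q using Quotient.inductionOn with
        | h x =>
          induction r using Quotient.inductionOn with
          | h y =>
            intro hq _ hqr
            exact Quotient.sound (dep12 x y hqr hq)
    have h2 := Set.ncard_add_ncard_compl ({q | c q ≠ {∅}} : Set (Quotient (tupleSetoid G 12)))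
    have h3 : ({q | c q ≠ {∅}} : Set (Quotient (tupleSetoid G 12)))ᶜ = {q | c q = {∅}} := by
      ext q
      simp
    have h4 : ({q | c q = {∅}} : Set (Quotient (tupleSetoid G 12))).ncard = Fintype.card I := by
      rw [← Nat.card_eq_fintype_card]
      rfl
    have h5 : Nat.card (Quotient (tupleSetoid G 12)) = (CS Ω 12).ncard * 2 := h12
    rw [h3, h4, h5] at h2
    omega
  -- the fixed independent tuple
  have hI : Nonempty I := by
    rw [← Fintype.card_pos_iff]
    omega
  obtain ⟨⟨q0, hq0⟩⟩ := hI
  have hcs : ∀ z : Fin 12 ↪ Ω, code z = {∅} → code (fun i : Fin 11 => z i.castSucc) = {∅} := by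
    intro z hz
    ext S
    have h1 := code_comp (z : Fin 12 → Ω) Fin.castSuccEmb S
    rw [hz, Finset.mem_singleton, Finset.map_eq_empty] at h1
    rw [Finset.mem_singleton]
    exact h1
  obtain ⟨z0, hz0⟩ := Quotient.exists_rep q0
  have hz0c : code z0 = {∅} := by
    rw [← hz0] at hq0
    exact hq0
  let xb : Fin 11 ↪ Ω := Fin.castSuccEmb.trans z0
  have hxb : code xb = {∅} := hcs z0 hz0c
  -- representatives over the fixed tuple
  have hrep : ∀ q : I, ∃ y : Ω, ∃ h : ∀ i, xb i ≠ y,
      Quotient.mk (tupleSetoid G 12) (sn xb y h) = q.1 := by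
    rintro ⟨q, hq⟩
    obtain ⟨z, hz⟩ := Quotient.exists_rep q
    have hzc : code z = {∅} := by
      rw [← hz] at hq
      exact hq
    have h1 : code (Fin.castSuccEmb.trans z) = code xb := by
      rw [hxb]; exact hcs z hzc
    obtain ⟨g, hg, hgx⟩ := sep11 _ _ h1
    have hgx' : ∀ i : Fin 11, g (z i.castSucc) = xb i := hgx
    refine ⟨g (z (Fin.last 11)), ?_, ?_⟩
    · intro i heq
      rw [← hgx' i] at heq
      have := z.injective (g.injective heq)
      exact (Fin.castSucc_ne_last i) this
    · show Quotient.mk (tupleSetoid G 12) _ = q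
      refine Eq.trans ?_ hz
      apply Quotient.sound
      refine ⟨g⁻¹, G.inv_mem hg, ?_⟩
      intro i
      have h1 : ∀ w, g⁻¹ (g w) = w := fun w => g.symm_apply_apply w
      refine Fin.lastCases ?_ (fun j => ?_) i
      · rw [sn_last, h1]
      · rw [sn_castSucc, ← hgx' j, h1]
  choose y hy hyq using hrep
  have hyinj : Function.Injective y := by
    intro q r hqr
    apply Subtype.ext
    rw [← hyq q, ← hyq r]
    congr 1
    apply DFunLike.ext
    intro i
    refine Fin.lastCases ?_ (fun j => ?_) i
    · rw [sn_last, sn_last, hqr]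
    · rw [sn_castSucc, sn_castSucc]
  have hne13 : ∀ (q r : I), q ≠ r → ∀ i, sn xb (y q) (hy q) i ≠ y r := by
    intro q r hqr i
    refine Fin.lastCases ?_ (fun j => ?_) i
    · rw [sn_last]
      intro h
      exact hqr (hyinj h)
    · rw [sn_castSucc]
      exact hy r j
  let Φ : I × I → Quotient (tupleSetoid G 13) := fun p =>
    if h : p.1 ≠ p.2 then
      Quotient.mk (tupleSetoid G 13) (sn (sn xb (y p.1) (hy p.1)) (y p.2) (hne13 p.1 p.2 h))
    else Quotient.mk (tupleSetoid G 13)
      (sn (sn xb (y p.1) (hy p.1)) (Classical.choose (Infinite.exists_notMem_finset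
        (univ.image (sn xb (y p.1) (hy p.1))))) (fun i hi =>
          (Classical.choose_spec (Infinite.exists_notMem_finset
            (univ.image (sn xb (y p.1) (hy p.1))))) (hi ▸ Finset.mem_image_of_mem _
              (Finset.mem_univ i))))
  letI : Fintype (Quotient (tupleSetoid G 13)) := Fintype.ofFinite _
  have hcard : (univ : Finset I).offDiag.card ≤
      (univ : Finset (Quotient (tupleSetoid G 13))).card := by
    apply Finset.card_le_card_of_injOn Φ
    · intro p _; exact Finset.mem_coe.2 (Finset.mem_univ _)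
    · rintro ⟨q, r⟩ hp ⟨q', r'⟩ hp' heq
      rw [Finset.mem_coe, Finset.mem_offDiag] at hp hp'
      have h1 : q ≠ r := hp.2.2
      have h2 : q' ≠ r' := hp'.2.2
      have e1 : Φ (q, r) = Quotient.mk (tupleSetoid G 13)
          (sn (sn xb (y q) (hy q)) (y r) (hne13 q r h1)) := by
        simp only [Φ]
        rw [dif_pos h1]
      have e2 : Φ (q', r') = Quotient.mk (tupleSetoid G 13)
          (sn (sn xb (y q') (hy q')) (y r') (hne13 q' r' h2)) := by
        simp only [Φ]
        rw [dif_pos h2]
      rw [e1, e2] at heq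
      obtain ⟨g, hg, hgx⟩ : ∃ g ∈ G, ∀ i, g (sn (sn xb (y q) (hy q)) (y r) (hne13 q r h1) i) =
        sn (sn xb (y q') (hy q')) (y r') (hne13 q' r' h2) i := Quotient.exact heq
      have g1 : ∀ j, g (xb j) = xb j := by
        intro j
        have := hgx j.castSucc.castSucc
        rw [sn_castSucc, sn_castSucc, sn_castSucc, sn_castSucc] at this
        exact this
      have g2 : g (y q) = y q' := by
        have := hgx (Fin.last 11).castSucc
        rw [sn_castSucc, sn_castSucc, sn_last, sn_last] at this
        exact this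
      have g3 : g (y r) = y r' := by
        have := hgx (Fin.last 12)
        rw [sn_last, sn_last] at this
        exact this
      have key : ∀ s s' : I, g (y s) = y s' → s = s' := by
        intro s s' hs
        apply Subtype.ext
        rw [← hyq s, ← hyq s']
        apply Quotient.sound
        refine ⟨g, hg, ?_⟩
        intro i
        refine Fin.lastCases ?_ (fun j => ?_) i
        · rw [sn_last, sn_last, hs]
        · rw [sn_castSucc, sn_castSucc, g1]
      rw [key q q' g2, key r r' g3]
  rw [Finset.offDiag_card, Finset.card_univ, Finset.card_univ] at hcard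
  have h13c : Fintype.card (Quotient (tupleSetoid G 13)) = orbitCount G 13 := by
    rw [← Nat.card_eq_fintype_card]; rfl
  rw [h13c] at hcard
  have hC := CS_succ hX 12
  have hC' : (CS Ω 13).ncard ≤ (CS Ω 12).ncard * 4097 := by
    have : 2 ^ 12 + 1 = 4097 := by norm_num
    rw [this] at hC
    exact hC
  set N := (CS Ω 12).ncard with hNdef
  set t := Fintype.card I with htdef
  have f1 : t * t - t ≤ N * 4097 * 8192 := by
    refine hcard.trans (h13.trans ?_)
    exact Nat.mul_le_mul_right _ hC'
  have f2 : t * (t - 1) ≤ N * 33562624 := by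
    have : t * (t - 1) = t * t - t := by rw [Nat.mul_sub, mul_one]
    rw [this]
    calc t * t - t ≤ N * 4097 * 8192 := f1
      _ = N * 33562624 := by ring
  have f3 : N * (N - 1) ≤ t * (t - 1) := Nat.mul_le_mul ht (by omega)
  have f4 : N * (N - 1) ≤ N * 33562624 := f3.trans f2
  have f5 : N - 1 ≤ 33562624 := Nat.le_of_mul_le_mul_left f4 (by omega)
  omega

end fin

end Pool.Agent.Helper798.FSeq
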