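import Mathlib
import Pool.Agent.Helper798.FSeq.Blocks

set_option autoImplicit false

namespace Pool.Agent.Helper798.FSeq

open Finset

universe u

/-- A Boolean Steiner quadruple system gives a vector space structure. -/
theorem exists_group {Ω : Type u} [Infinite Ω] {G : Subgroup (Equiv.Perm Ω)}
    (h3 : orbitCount G 3 = 1) (h4 : orbitCount G 4 = 2)
    (h5 : orbitCount G 5 ≤ 6) (h5' : orbitCount G 5 ≠ 0) (h6 : orbitCount G 6 ≤ 32)
    (h6' : orbitCount G 6 ≠ 0) :
    ∃ _ : AddCommGroup Ω, (∀ x : Ω, x + x = 0) ∧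
      ∀ g ∈ G, ∀ x y z : Ω, g (x + y + z) = g x + g y + g z := by
  classical
  obtain ⟨T, hT, hk, hw⟩ := exists_T h3 h4 h5 h5'
  have hex : ∀ a b c : Ω, (a ≠ b ∧ a ≠ c ∧ b ≠ c) → ∃ d, Blk T a b c d :=
    fun a b c hd => exists_blk hT h3 a b c hd
  choose! p hp using hex
  -- the fourth point is determined
  have hpu : ∀ a b c d, Blk T a b c d → p a b c = d := by
    intro a b c d h
    exact (hp a b c ⟨h.1.1, h.1.2.1, h.1.2.2.2.1⟩).uniq hw h
  let q : Ω → Ω → Ω → Ω := fun x y z =>
    if x = y then z else if x = z then y else if y = z then x else p x y z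
  have q1 : ∀ x z, q x x z = z := fun x z => by simp only [q, if_true]
  have q2 : ∀ x y, q x y x = y := by
    intro x y
    by_cases h : x = y
    · simp only [q, h, if_true]
    · simp only [q, h, if_false, if_true]
  have q3 : ∀ x y, q x y y = x := by
    intro x y
    by_cases h : x = y
    · simp only [q, h, if_true]
    · simp only [q, h, if_false, if_true]
  have q4 : ∀ x y z, x ≠ y → x ≠ z → y ≠ z → q x y z = p x y z := by
    intro x y z h1 h2 h3
    simp only [q, h1, h2, h3, if_false]
  have qb : ∀ x y z w, Blk T x y z w → q x y z = w := by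
    intro x y z w h
    rw [q4 x y z h.1.1 h.1.2.1 h.1.2.2.2.1]
    exact hpu _ _ _ _ h
  have qc12 : ∀ x y z, q x y z = q y x z := by
    intro x y z
    by_cases h1 : x = y
    · rw [h1]
    by_cases h2 : x = z
    · subst h2; rw [q2, q3]
    by_cases h3 : y = z
    · subst h3; rw [q3, q2]
    have hb := hp x y z ⟨h1, h2, h3⟩
    rw [qb _ _ _ _ hb, qb _ _ _ _ (hb.s12 hk)]
  have qc23 : ∀ x y z, q x y z = q x z y := by
    intro x y z
    by_cases h1 : x = y
    · subst h1; rw [q1, q2]
    by_cases h2 : x = z
    · subst h2; rw [q2, q1]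
    by_cases h3 : y = z
    · rw [h3]
    have hb := hp x y z ⟨h1, h2, h3⟩
    rw [qb _ _ _ _ hb, qb _ _ _ _ (hb.s23 hk)]
  -- the Boolean law
  have law : ∀ a b c e, q a b e = q c (q a b c) e := by
    intro a b c e
    by_cases hab : a = b
    · subst hab; rw [q1, q1, q1]
    by_cases hac : a = c
    · subst hac; rw [q2]
    by_cases hbc : b = c
    · subst hbc; rw [q3, qc12]
    have hb := hp a b c ⟨hab, hac, hbc⟩
    rw [qb _ _ _ _ hb]
    revert hb
    generalize p a b c = d
    intro hb
    by_cases hea : e = a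
    · subst hea
      rw [q2, qb c d e b]
      exact (((((hb.s23 hk).s12 hk).s34 hk).s23 hk))
    by_cases heb : e = b
    · subst heb
      rw [q3, qb c d e a]
      exact (((((((hb.s12 hk).s23 hk).s12 hk).s34 hk).s23 hk)))
    by_cases hec : e = c
    · subst hec
      rw [q2, qb a b e d hb]
    by_cases hed : e = d
    · subst hed
      rw [q3, qb a b e c (hb.s34 hk)]
    have hb2 := hp a b e ⟨hab, fun h => hea h.symm, fun h => heb h.symm⟩
    rw [qb _ _ _ _ hb2]
    revert hb2
    generalize p a b e = f
    intro hb2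
    have hcf : c ≠ f := by
      rintro rfl
      exact hed ((hb2.s34 hk).uniq hw hb)
    have hdf : d ≠ f := by
      rintro rfl
      exact hec ((hb2.s34 hk).uniq hw (hb.s34 hk))
    exact (qb _ _ _ _ (boo hT hk hw h6 h6' hb hb2 (fun h => hec h.symm) (fun h => hed h.symm)
      hcf hdf)).symm
  obtain ⟨o⟩ : Nonempty Ω := inferInstance
  have assoc : ∀ x y z, q (q x y o) z o = q x y z := by
    intro x y z
    rw [law x y o z, qc12 o, qc23]
  have assoc' : ∀ x y z, q x (q y z o) o = q x y z := by
    intro x y z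
    rw [qc12 x (q y z o) o, assoc, qc23 y z x, qc12 y x z]
  letI iadd : Add Ω := ⟨fun x y => q x y o⟩
  letI ineg : Neg Ω := ⟨fun x => x⟩
  letI izero : Zero Ω := ⟨o⟩
  letI ag : AddGroup Ω := AddGroup.ofLeftAxioms
    (by
      intro x y z
      show q (q x y o) z o = q x (q y z o) o
      rw [assoc, assoc'])
    (by
      intro x
      show q o x o = x
      exact q2 o x)
    (by
      intro x
      show q x x o = o
      exact q1 x o)
  let inst : AddCommGroup Ω :=
    { ag with
      add_comm := by
        intro x y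
        show q x y o = q y x o
        exact qc12 x y o }
  have hadd : ∀ x y : Ω, x + y = q x y o := fun _ _ => rfl
  have hzero : (0 : Ω) = o := rfl
  refine ⟨inst, ?_, ?_⟩
  · intro x
    rw [hadd, hzero]
    exact q1 x o
  · intro g hg x y z
    have hq : ∀ x y z, g (q x y z) = q (g x) (g y) (g z) := by
      intro x y z
      by_cases h1 : x = y
      · subst h1; rw [q1, q1]
      by_cases h2 : x = z
      · subst h2; rw [q2, q2]
      by_cases h3 : y = z
      · subst h3; rw [q3, q3]
      have hb := hp x y z ⟨h1, h2, h3⟩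
      rw [qb _ _ _ _ hb, qb _ _ _ _ (hb.map hT hg)]
    have hthree : ∀ x y z : Ω, x + y + z = q x y z := by
      intro x y z
      rw [hadd, hadd]
      exact assoc x y z
    rw [hthree, hthree, hq]

end Pool.Agent.Helper798.FSeq
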