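import Mathlib
import Pool.Agent.Helper798.FSeq.Defs
import Pool.Agent.Helper798.FSeq.Baf

set_option autoImplicit false

namespace Pool.Agent.Helper798.FSeq

open Finset

universe u

theorem oligo_of_inj {Ω : Type u} (G : Subgroup (Equiv.Perm Ω))
    (h : ∀ n, Finite (Quotient (tupleSetoid G n))) : Oligomorphic G := by
  classical
  intro n _
  let F : (Σ m : Fin (n + 1), Quotient (tupleSetoid G m) × (Fin n → Fin m)) →
      Quotient (allTupleSetoid G n) := fun p =>
    Quotient.lift (fun e : Fin p.1 ↪ Ω => Quotient.mk (allTupleSetoid G n)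
      (fun i => e (p.2.2 i))) (by
        rintro e e' ⟨g, hg, hge⟩
        apply Quotient.sound
        exact ⟨g, hg, fun i => hge _⟩) p.2.1
  have hfin : Finite (Σ m : Fin (n + 1), Quotient (tupleSetoid G m) × (Fin n → Fin m)) := by
    have := fun m : Fin (n + 1) => h m
    infer_instance
  apply Finite.of_surjective F
  intro q
  induction q using Quotient.inductionOn with
  | h x =>
    let S := univ.image x
    have hS : S.card < n + 1 := by
      have := Finset.card_image_le (s := (univ : Finset (Fin n))) (f := x)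
      rw [Finset.card_univ, Fintype.card_fin] at this
      exact Nat.lt_succ_of_le this
    let e : Fin S.card ↪ Ω := ⟨fun i => (S.equivFin.symm i).1, fun i j hij => by
      have := Subtype.ext hij
      exact S.equivFin.symm.injective this⟩
    let f : Fin n → Fin S.card := fun i =>
      S.equivFin ⟨x i, Finset.mem_image_of_mem x (Finset.mem_univ i)⟩
    refine ⟨⟨⟨S.card, hS⟩, Quotient.mk _ e, f⟩, ?_⟩
    show Quotient.mk (allTupleSetoid G n) (fun i => e (f i)) = _
    congr 1
    funext i
    show (S.equivFin.symm (S.equivFin _)).1 = x i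
    rw [Equiv.symm_apply_apply]

/-- The extension property of a `12`-uniform hypergraph. -/
def ExtProp (E : Finset ℕ → Prop) : Prop :=
  ∀ (A : Finset ℕ) (D : Finset (Finset ℕ)), ∃ b, b ∉ A ∧ ∀ T ⊆ A, (E (insert b T) ↔ T ∈ D)

theorem exists_extProp : ∃ E : Finset ℕ → Prop, ExtProp E := by
  classical
  obtain ⟨f, hf⟩ := exists_surjective_nat (Finset (Finset ℕ))
  refine ⟨fun T => ∃ b ∈ T, (∀ a ∈ T, a ≤ b) ∧ T.erase b ∈ f b.unpair.1, ?_⟩
  intro A D
  obtain ⟨m, hm⟩ := hf D
  have h1 : ∀ a ∈ A, a < Nat.pair m (A.sup id + 1) := by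
    intro a ha
    have h2 : a ≤ A.sup id := Finset.le_sup (f := id) ha
    have h3 := Nat.right_le_pair m (A.sup id + 1)
    omega
  refine ⟨Nat.pair m (A.sup id + 1), fun h => absurd (h1 _ h) (lt_irrefl _), ?_⟩
  intro T hT
  have hnT : Nat.pair m (A.sup id + 1) ∉ T := fun h => absurd (h1 _ (hT h)) (lt_irrefl _)
  constructor
  · rintro ⟨b, hb, hmax, hE⟩
    have hb' : b = Nat.pair m (A.sup id + 1) := by
      rw [Finset.mem_insert] at hb
      rcases hb with hb | hb
      · exact hb
      · have h2 := hmax _ (Finset.mem_insert_self _ _)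
        have h3 := h1 _ (hT hb)
        omega
    subst hb'
    rw [Nat.unpair_pair, hm, Finset.erase_insert hnT] at hE
    exact hE
  · intro hTD
    refine ⟨_, Finset.mem_insert_self _ _, ?_, ?_⟩
    · intro a ha
      rw [Finset.mem_insert] at ha
      rcases ha with rfl | ha
      · exact le_rfl
      · exact (h1 _ (hT ha)).le
    · rw [Nat.unpair_pair, hm, Finset.erase_insert hnT]
      exact hTD

/-- The automorphism group of a `12`-uniform hypergraph. -/
def hypGroup (E : Finset ℕ → Prop) : Subgroup (Equiv.Perm ℕ) where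
  carrier := {g | ∀ T : Finset ℕ, T.card = 12 → (E (T.map g.toEmbedding) ↔ E T)}
  mul_mem' := by
    intro g h hg hh T hT
    have h1 : T.map (g * h).toEmbedding = (T.map h.toEmbedding).map g.toEmbedding := by
      rw [Finset.map_map]; rfl
    rw [h1, hg _ (by rw [Finset.card_map]; exact hT), hh _ hT]
  one_mem' := by
    intro T _
    have h1 : T.map (1 : Equiv.Perm ℕ).toEmbedding = T := by
      ext a
      rw [Finset.mem_map]
      constructor
      · rintro ⟨b, hb, rfl⟩; exact hb
      · intro ha; exact ⟨a, ha, rfl⟩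
    rw [h1]
  inv_mem' := by
    intro g hg T hT
    have h1 : (T.map (g⁻¹).toEmbedding).map g.toEmbedding = T := by
      ext a
      rw [Finset.mem_map]
      constructor
      · rintro ⟨b, hb, rfl⟩
        rw [Finset.mem_map] at hb
        obtain ⟨c, hc, rfl⟩ := hb
        have : g (g⁻¹ c) = c := g.apply_symm_apply c
        show g (g⁻¹ c) ∈ T
        rw [this]; exact hc
      · intro ha
        refine ⟨g⁻¹ a, Finset.mem_map.2 ⟨a, ha, rfl⟩, ?_⟩
        exact g.apply_symm_apply a
    rw [← hg _ (by rw [Finset.card_map]; exact hT), h1]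

/-- Finite pieces of automorphisms. -/
def HP (E : Finset ℕ → Prop) (s : Finset (ℕ × ℕ)) : Prop :=
  (∀ p ∈ s, ∀ q ∈ s, (p.1 = q.1 ↔ p.2 = q.2)) ∧
    ∀ F ⊆ s, F.card = 12 → (E (F.image Prod.fst) ↔ E (F.image Prod.snd))

theorem HP.swap {E : Finset ℕ → Prop} {s : Finset (ℕ × ℕ)} (h : HP E s) :
    HP E (s.image Prod.swap) := by
  refine ⟨?_, ?_⟩
  · intro p hp q hq
    rw [Finset.mem_image] at hp hq
    obtain ⟨p, hp, rfl⟩ := hp
    obtain ⟨q, hq, rfl⟩ := hq
    exact (h.1 p hp q hq).symm
  · intro F hF hc
    have h1 : (F.image Prod.swap).card = 12 := by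
      rw [Finset.card_image_of_injective _ Prod.swap_injective, hc]
    have h2 : F.image Prod.swap ⊆ s := by
      intro p hp
      rw [Finset.mem_image] at hp
      obtain ⟨q, hq, rfl⟩ := hp
      have := hF hq
      rw [Finset.mem_image] at this
      obtain ⟨r, hr, rfl⟩ := this
      rw [Prod.swap_swap]; exact hr
    have h3 := h.2 _ h2 h1
    rw [Finset.image_image, Finset.image_image] at h3
    exact h3.symm

theorem HP.forth {E : Finset ℕ → Prop} (hE : ExtProp E) {s : Finset (ℕ × ℕ)} (h : HP E s)
    (a : ℕ) : ∃ s', s ⊆ s' ∧ HP E s' ∧ ∃ b, (a, b) ∈ s' := by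
  classical
  by_cases ha : ∃ b, (a, b) ∈ s
  · exact ⟨s, Finset.Subset.refl s, h, ha⟩
  · have ha' : ∀ p ∈ s, p.1 ≠ a := by
      intro p hp hpa
      exact ha ⟨p.2, by rw [← hpa]; exact hp⟩
    obtain ⟨b, hb1, hb2⟩ := hE (s.image Prod.snd)
      ((s.powerset.filter (fun T => E (insert a (T.image Prod.fst)))).image
        (fun T => T.image Prod.snd))
    have hb' : ∀ p ∈ s, p.2 ≠ b := by
      intro p hp hpb
      exact hb1 (hpb ▸ Finset.mem_image_of_mem Prod.snd hp)
    have hkey : ∀ T ⊆ s, (E (insert b (T.image Prod.snd)) ↔ E (insert a (T.image Prod.fst))) := by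
      intro T hT
      rw [hb2 _ (Finset.image_subset_image hT), Finset.mem_image]
      constructor
      · rintro ⟨T', hT', hTT'⟩
        rw [Finset.mem_filter, Finset.mem_powerset] at hT'
        have h1 : T' = T := by
          have h2 : ∀ U ⊆ s, ∀ V ⊆ s, U.image Prod.snd = V.image Prod.snd → U ⊆ V := by
            intro U hU V hV hUV p hp
            have h3 : p.2 ∈ V.image Prod.snd := by
              rw [← hUV]; exact Finset.mem_image_of_mem Prod.snd hp
            rw [Finset.mem_image] at h3
            obtain ⟨q, hq, hqp⟩ := h3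
            have h4 := (h.1 q (hV hq) p (hU hp)).2 hqp
            have h5 : q = p := Prod.ext h4 hqp
            rw [← h5]; exact hq
          exact Finset.Subset.antisymm (h2 _ hT'.1 _ hT hTT') (h2 _ hT _ hT'.1 hTT'.symm)
        rw [← h1]; exact hT'.2
      · intro hET
        exact ⟨T, by rw [Finset.mem_filter, Finset.mem_powerset]; exact ⟨hT, hET⟩, rfl⟩
    refine ⟨insert (a, b) s, Finset.subset_insert _ _, ⟨?_, ?_⟩, b, Finset.mem_insert_self _ _⟩
    · intro p hp q hq
      rw [Finset.mem_insert] at hp hq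
      rcases hp with rfl | hp
      · rcases hq with rfl | hq
        · exact ⟨fun _ => rfl, fun _ => rfl⟩
        · exact ⟨fun h => absurd h.symm (ha' q hq), fun h => absurd h.symm (hb' q hq)⟩
      · rcases hq with rfl | hq
        · exact ⟨fun h => absurd h (ha' p hp), fun h => absurd h (hb' p hp)⟩
        · exact h.1 p hp q hq
    · intro F hF hc
      by_cases hab : (a, b) ∈ F
      · have h1 : F = insert (a, b) (F.erase (a, b)) := (Finset.insert_erase hab).symm
        have h2 : F.erase (a, b) ⊆ s := by
          intro p hp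
          rw [Finset.mem_erase] at hp
          have := hF hp.2
          rw [Finset.mem_insert] at this
          exact this.resolve_left hp.1
        rw [h1, Finset.image_insert, Finset.image_insert]
        exact (hkey _ h2).symm
      · apply h.2 F _ hc
        intro p hp
        have := hF hp
        rw [Finset.mem_insert] at this
        rcases this with h1 | h1
        · exact absurd (h1 ▸ hp) hab
        · exact h1

theorem HP.back {E : Finset ℕ → Prop} (hE : ExtProp E) {s : Finset (ℕ × ℕ)} (h : HP E s)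
    (b : ℕ) : ∃ s', s ⊆ s' ∧ HP E s' ∧ ∃ a, (a, b) ∈ s' := by
  obtain ⟨s', h1, h2, a, h3⟩ := h.swap.forth hE b
  refine ⟨s'.image Prod.swap, ?_, h2.swap, a, ?_⟩
  · intro p hp
    rw [Finset.mem_image]
    exact ⟨p.swap, h1 (Finset.mem_image_of_mem Prod.swap hp), Prod.swap_swap p⟩
  · rw [Finset.mem_image]
    exact ⟨_, h3, rfl⟩

/-- The complete invariant. -/
noncomputable def hcode (E : Finset ℕ → Prop) {n : ℕ} (x : Fin n ↪ ℕ) : Finset (Finset (Fin n)) :=
  open Classical in (powersetCard 12 univ).filter (fun T => E (T.map x))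

theorem hcode_iff {E : Finset ℕ → Prop} (hE : ExtProp E) {n : ℕ} (x y : Fin n ↪ ℕ) :
    (∃ g ∈ hypGroup E, ∀ i, g (x i) = y i) ↔ hcode E x = hcode E y := by
  classical
  constructor
  · rintro ⟨g, hg, hgx⟩
    ext T
    rw [hcode, hcode, Finset.mem_filter, Finset.mem_filter]
    apply and_congr_right
    intro hT
    rw [Finset.mem_powersetCard] at hT
    have h1 : T.map y = (T.map x).map g.toEmbedding := by
      rw [Finset.map_map]
      congr 1
      ext i
      exact (hgx i).symm
    rw [h1, hg _ (by rw [Finset.card_map]; exact hT.2)]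
  · intro h
    obtain ⟨g, hg1, hg2⟩ := baf (X := ℕ) (HP E) (fun s hs => hs.1) (fun s hs a => hs.forth hE a)
      (fun s hs b => hs.back hE b) (univ.image (fun i => (x i, y i))) (by
      have hinj : Function.Injective (fun i => (x i, y i)) := by
        intro i j hij
        exact x.injective (congrArg Prod.fst hij)
      refine ⟨?_, ?_⟩
      · intro p hp q hq
        rw [Finset.mem_image] at hp hq
        obtain ⟨i, _, rfl⟩ := hp
        obtain ⟨j, _, rfl⟩ := hq
        show x i = x j ↔ y i = y j
        rw [x.injective.eq_iff, y.injective.eq_iff]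
      · intro F hF hc
        obtain ⟨T, _, hT⟩ := Finset.subset_image_iff.1 hF
        have hTc : T.card = 12 := by
          rw [← hc, ← hT, Finset.card_image_of_injective _ hinj]
        have hx : F.image Prod.fst = T.map x := by
          rw [← hT, Finset.image_image, Finset.map_eq_image]; rfl
        have hy : F.image Prod.snd = T.map y := by
          rw [← hT, Finset.image_image, Finset.map_eq_image]; rfl
        rw [hx, hy]
        have h1 : T ∈ hcode E x ↔ T ∈ hcode E y := by rw [h]
        rw [hcode, hcode, Finset.mem_filter, Finset.mem_filter] at h1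
        have h2 : T ∈ powersetCard 12 (univ : Finset (Fin n)) := by
          rw [Finset.mem_powersetCard]; exact ⟨Finset.subset_univ _, hTc⟩
        constructor
        · intro h3; exact (h1.1 ⟨h2, h3⟩).2
        · intro h3; exact (h1.2 ⟨h2, h3⟩).2)
    refine ⟨g, ?_, ?_⟩
    · intro T hT
      obtain ⟨s, hs, hsT⟩ := hg2 T
      have h1 : T.image (fun a => (a, g a)) ⊆ s := by
        intro p hp
        rw [Finset.mem_image] at hp
        obtain ⟨a, ha, rfl⟩ := hp
        exact hsT a ha
      have h2 := hs.2 _ h1 (by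
        rw [Finset.card_image_of_injective _ (fun a b hab => congrArg Prod.fst hab), hT])
      rw [Finset.image_image, Finset.image_image] at h2
      have h3 : T.image (Prod.fst ∘ fun a => (a, g a)) = T := by
        have : (Prod.fst ∘ fun a => (a, g a)) = id := rfl
        rw [this, Finset.image_id]
      have h4 : T.image (Prod.snd ∘ fun a => (a, g a)) = T.map g.toEmbedding := by
        rw [Finset.map_eq_image]; rfl
      rw [h3, h4] at h2
      exact h2.symm
    · intro i
      exact hg1 (x i, y i) (Finset.mem_image.2 ⟨i, Finset.mem_univ _, rfl⟩)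

theorem hyp_count {E : Finset ℕ → Prop} (hE : ExtProp E) (n : ℕ) :
    orbitCount (hypGroup E) n = (Set.range (fun x : Fin n ↪ ℕ => hcode E x)).ncard :=
  orbitCount_eq _ (fun x y => hcode_iff hE x y)

theorem hyp_range_nonempty (E : Finset ℕ → Prop) (n : ℕ) :
    (Set.range (fun x : Fin n ↪ ℕ => hcode E x)).Nonempty :=
  ⟨_, Fin.valEmbedding, rfl⟩

theorem hyp_small {E : Finset ℕ → Prop} (hE : ExtProp E) {n : ℕ} (hn : n < 12) :
    orbitCount (hypGroup E) n = 1 := by
  rw [hyp_count hE]
  have h1 : ∀ x : Fin n ↪ ℕ, hcode E x = ∅ := by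
    intro x
    rw [hcode, Finset.powersetCard_eq_empty.2, Finset.filter_empty]
    rw [Finset.card_univ, Fintype.card_fin]
    exact hn
  have h2 : Set.range (fun x : Fin n ↪ ℕ => hcode E x) = {∅} := by
    apply Set.Subset.antisymm
    · rintro c ⟨x, rfl⟩; exact h1 x
    · rintro c hc
      rw [Set.mem_singleton_iff] at hc
      subst hc
      exact ⟨Fin.valEmbedding, h1 _⟩
  rw [h2, Set.ncard_singleton]

theorem hyp_pos {E : Finset ℕ → Prop} (hE : ExtProp E) (n : ℕ) :
    0 < orbitCount (hypGroup E) n := by
  rw [hyp_count hE, Set.ncard_pos (Set.toFinite _)]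
  exact hyp_range_nonempty E n

theorem hyp_thirteen {E : Finset ℕ → Prop} (hE : ExtProp E) :
    orbitCount (hypGroup E) 13 ≤ 8192 := by
  classical
  rw [hyp_count hE]
  have h1 : Set.range (fun x : Fin 13 ↪ ℕ => hcode E x) ⊆
      ((powersetCard 12 (univ : Finset (Fin 13))).powerset : Set _) := by
    rintro c ⟨x, rfl⟩
    rw [Finset.mem_coe, Finset.mem_powerset]
    exact Finset.filter_subset _ _
  have h2 := Set.ncard_le_ncard h1 (Finset.finite_toSet _)
  rw [Set.ncard_coe_finset, Finset.card_powerset, Finset.card_powersetCard, Finset.card_univ,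
    Fintype.card_fin] at h2
  have h3 : 2 ^ Nat.choose 13 12 = 8192 := by decide
  rwa [h3] at h2

theorem hyp_twelve {E : Finset ℕ → Prop} (hE : ExtProp E) :
    orbitCount (hypGroup E) 12 = 2 := by
  classical
  rw [hyp_count hE]
  have h1 : ∀ x : Fin 12 ↪ ℕ, hcode E x = if E (univ.map x) then {univ} else ∅ := by
    intro x
    have h2 : powersetCard 12 (univ : Finset (Fin 12)) = {univ} := by
      have := Finset.powersetCard_self (univ : Finset (Fin 12))
      rwa [Finset.card_univ, Fintype.card_fin] at this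
    rw [hcode, h2, Finset.filter_singleton]
  have hex : ∀ D : Finset (Finset ℕ), ∃ x : Fin 12 ↪ ℕ,
      (E (univ.map x) ↔ Finset.range 11 ∈ D) := by
    intro D
    obtain ⟨b, hb1, hb2⟩ := hE (Finset.range 11) D
    let x : Fin 12 → ℕ := Fin.cons b (fun i : Fin 11 => (i : ℕ))
    have hx : Function.Injective x := by
      rw [Fin.cons_injective_iff]
      refine ⟨?_, Fin.val_injective⟩
      rintro ⟨i, hi⟩
      apply hb1
      rw [Finset.mem_range, ← hi]
      exact i.2
    refine ⟨⟨x, hx⟩, ?_⟩
    have h3 : univ.map ⟨x, hx⟩ = insert b (Finset.range 11) := by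
      ext a
      rw [Finset.mem_map, Finset.mem_insert, Finset.mem_range]
      constructor
      · rintro ⟨i, _, hi⟩
        revert hi
        refine Fin.cases ?_ (fun j => ?_) i
        · intro h; left; exact h.symm
        · intro h; right
          have h4 : (j : ℕ) = a := h
          rw [← h4]; exact j.2
      · rintro (rfl | ha)
        · exact ⟨0, Finset.mem_univ _, rfl⟩
        · exact ⟨Fin.succ ⟨a, ha⟩, Finset.mem_univ _, rfl⟩
    rw [h3]
    exact hb2 _ (Finset.Subset.refl _)
  obtain ⟨x, hx⟩ := hex {Finset.range 11}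
  obtain ⟨y, hy⟩ := hex ∅
  have h3 : Set.range (fun x : Fin 12 ↪ ℕ => hcode E x) = {{univ}, ∅} := by
    apply Set.Subset.antisymm
    · rintro c ⟨x, rfl⟩
      show hcode E x ∈ _
      rw [h1]
      split_ifs
      · exact Or.inl rfl
      · exact Or.inr rfl
    · rintro c (rfl | rfl)
      · refine ⟨x, ?_⟩
        show hcode E x = _
        rw [h1, if_pos (hx.2 (Finset.mem_singleton_self _))]
      · refine ⟨y, ?_⟩
        show hcode E y = _
        rw [h1, if_neg (fun h => absurd (hy.1 h) (Finset.notMem_empty _))]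
  rw [h3, Set.ncard_pair (Finset.singleton_ne_empty _)]

theorem hyp_oligo {E : Finset ℕ → Prop} (hE : ExtProp E) : Oligomorphic (hypGroup E) := by
  apply oligo_of_inj
  intro n
  exact finite_of_ne_zero (hyp_pos hE n).ne'

theorem hyp_prim {E : Finset ℕ → Prop} (hE : ExtProp E) : Primitive (hypGroup E) := by
  have h1 : ∀ n, n < 12 → ∀ x y : Fin n ↪ ℕ, ∃ g ∈ hypGroup E, ∀ i, g (x i) = y i := by
    intro n hn x y
    rw [hcode_iff hE, hcode, hcode, Finset.powersetCard_eq_empty.2, Finset.filter_empty,
      Finset.filter_empty]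
    rw [Finset.card_univ, Fintype.card_fin]
    exact hn
  apply primitive_of_two
  · intro x y
    obtain ⟨g, hg, h⟩ := h1 1 (by norm_num) ⟨fun _ => x, fun _ _ _ => Subsingleton.elim _ _⟩
      ⟨fun _ => y, fun _ _ _ => Subsingleton.elim _ _⟩
    exact ⟨g, hg, h 0⟩
  · intro x y x' y' hxy hxy'
    obtain ⟨g, hg, h⟩ := h1 2 (by norm_num) ⟨![x, y], by
      intro i j hij
      fin_cases i <;> fin_cases j <;> simp_all [eq_comm]⟩ ⟨![x', y'], by
      intro i j hij
      fin_cases i <;> fin_cases j <;> simp_all [eq_comm]⟩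
    exact ⟨g, hg, h 0, h 1⟩

end Pool.Agent.Helper798.FSeq
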